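import Pool.Agent.H494_SA.Rel

/-! The model without unmarked elements is strongly autostable. -/

open FirstOrder Cardinal FirstOrder.Language

namespace Pool.Agent.H494_SA

open Pool.Agent.H494_SCM

theorem cp_iff2 {α : Type} [Primcodable α] {p q : α → Prop} (hp : ComputablePred p)
    (hq : ComputablePred q) : ComputablePred (fun a => p a ↔ q a) := by
  refine cp_of_iff (cp_or (cp_and hp hq) (cp_and (cp_not hp) (cp_not hq))) ?_
  intro a
  tauto

theorem auto_zero (p : Ev) : StronglyAutostable (ar := arC) (Mj p 0) := by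
  intro ν μ hν hμ
  have g : ∀ k, Computable (fun x : ℕ × ℕ => gt k x.2) := fun k => (gt_comp k).comp Computable.snd
  have x1 : Computable (fun x : ℕ × ℕ => x.1) := Computable.fst
  have kI_c : ∀ k, Computable (fun x : ℕ × ℕ => kI (gt k x.2)) := fun k =>
    c_add (c_pair (Computable.const 1) (g k)) (Computable.const 1)
  have qI_c : ∀ k, Computable (fun x : ℕ × ℕ => qI (gt k x.2)) := fun k =>
    c_add (c_pair (Computable.const 2) (g k)) (Computable.const 1)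
  let P : ℕ × ℕ → Prop := fun x =>
    (rel arC (Mj p 0) oI [ν x.1] ∧ rel arC (Mj p 0) (kI (gt 1 x.2)) [ν x.1] ∧
      rel arC (Mj p 0) (kI (gt 1 x.2)) [μ (gt 0 x.2)]) ∨
    (rel arC (Mj p 0) 0 [ν x.1, ν (gt 1 x.2), ν (gt 2 x.2)] ∧
      rel arC (Mj p 0) (kI (gt 3 x.2)) [ν (gt 1 x.2)] ∧
      rel arC (Mj p 0) (kI (gt 4 x.2)) [ν (gt 2 x.2)] ∧
      rel arC (Mj p 0) 0 [μ (gt 0 x.2), μ (gt 5 x.2), μ (gt 6 x.2)] ∧
      rel arC (Mj p 0) (kI (gt 3 x.2)) [μ (gt 5 x.2)] ∧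
      rel arC (Mj p 0) (kI (gt 4 x.2)) [μ (gt 6 x.2)] ∧
      (rel arC (Mj p 0) (qI (gt 3 x.2)) [ν x.1] ↔
        rel arC (Mj p 0) (qI (gt 3 x.2)) [μ (gt 0 x.2)]))
  have hP : ComputablePred P := by
    refine cp_or (cp_and (strong_rel1 hν (Computable.const oI) x1)
      (cp_and (strong_rel1 hν (kI_c 1) x1) (strong_rel1 hμ (kI_c 1) (g 0)))) ?_
    refine cp_and (strong_rel3 hν (Computable.const 0) x1 (g 1) (g 2)) ?_
    refine cp_and (strong_rel1 hν (kI_c 3) (g 1)) ?_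
    refine cp_and (strong_rel1 hν (kI_c 4) (g 2)) ?_
    refine cp_and (strong_rel3 hμ (Computable.const 0) (g 0) (g 5) (g 6)) ?_
    refine cp_and (strong_rel1 hμ (kI_c 3) (g 5)) ?_
    refine cp_and (strong_rel1 hμ (kI_c 4) (g 6)) ?_
    exact cp_iff2 (strong_rel1 hν (qI_c 3) x1) (strong_rel1 hμ (qI_c 3) (g 0))
  have hex : ∀ n, ∃ w, P (n, w) := by
    intro n
    obtain ⟨m, hm⟩ := hμ.1 (ν n)
    rcases hn : ν n with x | ⟨a, b, e⟩
    · refine ⟨Encodable.encode [m, x], Or.inl ⟨(rel_O p (mk 0) _).2 ⟨x, hn⟩, ?_, ?_⟩⟩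
      · rw [gt_encode]
        exact (rel_K p (mk 0) _ _).2 hn
      · rw [gt_encode, gt_encode]
        refine (rel_K p (mk 0) _ _).2 ?_
        show μ m = _
        rw [hm, hn]
        rfl
    · obtain ⟨r, hr⟩ := hν.1 (Sum.inl a)
      obtain ⟨s, hs⟩ := hν.1 (Sum.inl b)
      obtain ⟨r', hr'⟩ := hμ.1 (Sum.inl a)
      obtain ⟨s', hs'⟩ := hμ.1 (Sum.inl b)
      refine ⟨Encodable.encode [m, r, s, a, b, r', s'], Or.inr ?_⟩
      simp only [gt_encode]
      refine ⟨?_, ?_, ?_, ?_, ?_, ?_, ?_⟩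
      · exact (rel_C p (mk 0) _ _ _).2 ⟨a, b, e, hn, hr, hs⟩
      · exact (rel_K p (mk 0) _ _).2 hr
      · exact (rel_K p (mk 0) _ _).2 hs
      · exact (rel_C p (mk 0) _ _ _).2 ⟨a, b, e, hm.trans hn, hr', hs'⟩
      · exact (rel_K p (mk 0) _ _).2 hr'
      · exact (rel_K p (mk 0) _ _).2 hs'
      · have : μ ([m, r, s, a, b, r', s'].getD 0 0) = ν n := hm
        rw [this]
  obtain ⟨f, hf, hf'⟩ := exists_choice hP hex
  refine ⟨FirstOrder.Language.Equiv.refl (RL arC) _, fun n => gt 0 (f n), (gt_comp 0).comp hf, ?_⟩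
  intro n
  show ν n = μ (gt 0 (f n))
  rcases hf' n with ⟨h1, h2, h3⟩ | ⟨h1, h2, h3, h4, h5, h6, h7⟩
  · rw [(rel_K p (mk 0) _ _).1 h2, (rel_K p (mk 0) _ _).1 h3]
  · obtain ⟨a, b, e, e1, e2, e3⟩ := (rel_C p (mk 0) _ _ _).1 h1
    obtain ⟨a', b', e', e1', e2', e3'⟩ := (rel_C p (mk 0) _ _ _).1 h4
    have k1 := (rel_K p (mk 0) _ _).1 h2
    have k2 := (rel_K p (mk 0) _ _).1 h3
    have k3 := (rel_K p (mk 0) _ _).1 h5
    have k4 := (rel_K p (mk 0) _ _).1 h6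
    rw [e2] at k1
    rw [e3] at k2
    rw [e2'] at k3
    rw [e3'] at k4
    have m1 := Sum.inl_injective k1
    have m2 := Sum.inl_injective k2
    have m3 := Sum.inl_injective k3
    have m4 := Sum.inl_injective k4
    have haa : a = a' := m1.trans m3.symm
    have hbb : b = b' := m2.trans m4.symm
    subst haa hbb
    rw [rel_Q, rel_Q] at h7
    rw [e1, e1'] at h7
    rw [e1, e1']
    have hs : ∀ e : Bool, (∃ b₁, (Sum.inr (a, b, e) : ℕ ⊕ ℕ × ℕ × Bool) =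
        Sum.inr (mk 0 (gt 3 (f n)), b₁, false)) ↔ e = false := by
      intro e
      constructor
      · rintro ⟨b₁, hb₁⟩
        simp only [Sum.inr.injEq, Prod.mk.injEq] at hb₁
        exact hb₁.2.2
      · rintro rfl
        exact ⟨b, by rw [← m1]⟩
    rw [hs, hs] at h7
    have : e = e' := by
      cases e <;> cases e' <;> simp_all
    rw [this]

end Pool.Agent.H494_SA
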