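import Pool.Agent.H494_SA.Family

/-! Every structure elementarily equivalent to a member of the family is a member. -/

open FirstOrder Cardinal FirstOrder.Language

namespace Pool.Agent.H494_SA

open Pool.Agent.H494_SCM

/-- axioms -/
structure CAx (p : Ev) (N : Type) [(RL arC).Structure N] : Prop where
  s1 : ∀ y : Fin 5 → N, rel arC N 0 [y 0, y 1, y 2] → ¬ rel arC N oI [y 0] ∧
    rel arC N oI [y 1] ∧ rel arC N oI [y 2] ∧
      (rel arC N 0 [y 0, y 3, y 4] → y 1 = y 3 ∧ y 2 = y 4)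
  s2 : ∀ y : Fin 1 → N, ¬ rel arC N oI [y 0] → ∃ z : Fin 2 → N, rel arC N 0 [y 0, z 0, z 1]
  s3 : ∀ y : Fin 2 → N, rel arC N oI [y 0] → rel arC N oI [y 1] → ∃ z : Fin 2 → N,
    z 0 ≠ z 1 ∧ rel arC N 0 [z 0, y 0, y 1] ∧ rel arC N 0 [z 1, y 0, y 1] ∧
      ∀ w : Fin 1 → N, rel arC N 0 [w 0, y 0, y 1] → w 0 = z 0 ∨ w 0 = z 1
  s4 : ∀ t : ℕ, ∃ y : Fin 1 → N, rel arC N oI [y 0] ∧ rel arC N (kI t) [y 0]
  s5 : ∀ t t' : ℕ, ∀ y : Fin 2 → N, rel arC N (kI t) [y 0] → rel arC N (kI t') [y 1] →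
    (y 0 = y 1 ↔ t = t')
  s6 : ∀ t : ℕ, ∀ y : Fin 1 → N, rel arC N (qI t) [y 0] → ∃ z : Fin 2 → N,
    rel arC N 0 [y 0, z 0, z 1] ∧ rel arC N (kI t) [z 0]
  s7 : ∀ t : ℕ, ∀ y : Fin 2 → N, rel arC N (kI t) [y 0] → rel arC N oI [y 1] →
    ∃ z : Fin 2 → N, rel arC N 0 [z 0, y 0, y 1] ∧ rel arC N 0 [z 1, y 0, y 1] ∧
      rel arC N (qI t) [z 0] ∧ ¬ rel arC N (qI t) [z 1]
  s8 : ∀ s i : ℕ, p.ev s = some i → ∀ y : Fin 1 → N, rel arC N (pI s) [y 0] →
    ∃ z : Fin 2 → N, rel arC N 0 [y 0, z 0, z 1] ∧ rel arC N (kI i) [z 1]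
  s9 : ∀ s i : ℕ, p.ev s = some i → ∀ y : Fin 2 → N, rel arC N oI [y 0] →
    rel arC N (kI i) [y 1] → ∃ z : Fin 2 → N, rel arC N 0 [z 0, y 0, y 1] ∧
      rel arC N 0 [z 1, y 0, y 1] ∧ rel arC N (pI s) [z 0] ∧ ¬ rel arC N (pI s) [z 1]
  s10 : ∀ idx : ℕ, (4 ≤ (Nat.unpair idx).1 ∨
    ((Nat.unpair idx).1 = 3 ∧ p.ev (Nat.unpair idx).2 = none)) → ∀ y : Fin 1 → N,
      ¬ rel arC N (idx + 1) [y 0]
  s11 : ∀ t s i : ℕ, p.ev s = some i → ∀ y : Fin 3 → N, rel arC N 0 [y 0, y 1, y 2] →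
    rel arC N (kI t) [y 1] → rel arC N (kI i) [y 2] →
      (rel arC N (qI t) [y 0] ↔ rel arC N (pI s) [y 0])
  s12 : ∀ s s' i : ℕ, p.ev s = some i → p.ev s' = some i → ∀ y : Fin 1 → N,
    (rel arC N (pI s) [y 0] ↔ rel arC N (pI s') [y 0])
  s13 : ∀ m : ℕ, ∀ y : Fin 1 → N, (rel arC N (Nat.pair 0 m + 1) [y 0] ↔ rel arC N oI [y 0])

theorem cAx_fam (p : Ev) {U : Type} (u : ℕ ↪ U) : CAx p ((fam p).Car arC u) where
  s1 := by
    intro y hy
    obtain ⟨r, a, e, h0, h1, h2⟩ := (rel_C p u _ _ _).1 hy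
    refine ⟨?_, (rel_O p u _).2 ⟨r, h1⟩, (rel_O p u _).2 ⟨a, h2⟩, ?_⟩
    · intro h
      obtain ⟨x, hx⟩ := (rel_O p u _).1 h
      rw [h0] at hx
      exact Sum.inr_ne_inl hx
    · intro h
      obtain ⟨r', a', e', h0', h1', h2'⟩ := (rel_C p u _ _ _).1 h
      rw [h0] at h0'
      have := Sum.inr_injective h0'
      simp only [Prod.mk.injEq] at this
      rw [h1, h1', h2, h2', this.1, this.2.1]
      exact ⟨rfl, rfl⟩
  s2 := by
    intro y hy
    rw [rel_O] at hy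
    rcases hy0 : (y 0 : U ⊕ U × U × Bool) with x | ⟨a, b, e⟩
    · exact absurd ⟨x, hy0⟩ hy
    · refine ⟨![(Sum.inl a : U ⊕ U × U × Bool), (Sum.inl b : U ⊕ U × U × Bool)], ?_⟩
      exact (rel_C p u _ _ _).2 ⟨a, b, e, rfl, rfl, rfl⟩
  s3 := by
    intro y h0 h1
    obtain ⟨a, ha⟩ := (rel_O p u _).1 h0
    obtain ⟨b, hb⟩ := (rel_O p u _).1 h1
    refine ⟨![(Sum.inr (a, b, false) : U ⊕ U × U × Bool),
      (Sum.inr (a, b, true) : U ⊕ U × U × Bool)], ?_, ?_, ?_, ?_⟩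
    · intro h
      have h' : (Sum.inr (a, b, false) : U ⊕ U × U × Bool) = Sum.inr (a, b, true) := h
      simp at h'
    · exact (rel_C p u _ _ _).2 ⟨a, b, false, rfl, ha, hb⟩
    · exact (rel_C p u _ _ _).2 ⟨a, b, true, rfl, ha, hb⟩
    · intro w hw
      obtain ⟨a', b', e, h0', h1', h2'⟩ := (rel_C p u _ _ _).1 hw
      rw [ha] at h1'
      rw [hb] at h2'
      have e1 := Sum.inl_injective h1'
      have e2 := Sum.inl_injective h2'
      subst e1 e2
      cases e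
      · left; exact h0'
      · right; exact h0'
  s4 := by
    intro t
    refine ⟨fun _ => (Sum.inl (u t) : U ⊕ U × U × Bool), ?_, ?_⟩
    · exact (rel_O p u _).2 ⟨_, rfl⟩
    · exact (rel_K p u t _).2 rfl
  s5 := by
    intro t t' y h h'
    have h1 := (rel_K p u t _).1 h
    have h2 := (rel_K p u t' _).1 h'
    rw [h1, h2]
    constructor
    · intro hh
      exact u.injective (Sum.inl_injective hh)
    · rintro rfl; rfl
  s6 := by
    intro t y h
    obtain ⟨b, hb⟩ := (rel_Q p u t _).1 h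
    refine ⟨![(Sum.inl (u t) : U ⊕ U × U × Bool), (Sum.inl b : U ⊕ U × U × Bool)], ?_, ?_⟩
    · exact (rel_C p u _ _ _).2 ⟨u t, b, false, hb, rfl, rfl⟩
    · exact (rel_K p u t _).2 rfl
  s7 := by
    intro t y h h'
    have h1 := (rel_K p u t _).1 h
    obtain ⟨b, hb⟩ := (rel_O p u _).1 h'
    refine ⟨![(Sum.inr (u t, b, false) : U ⊕ U × U × Bool),
      (Sum.inr (u t, b, true) : U ⊕ U × U × Bool)], ?_, ?_, ?_, ?_⟩
    · exact (rel_C p u _ _ _).2 ⟨u t, b, false, rfl, h1, hb⟩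
    · exact (rel_C p u _ _ _).2 ⟨u t, b, true, rfl, h1, hb⟩
    · exact (rel_Q p u t _).2 ⟨b, rfl⟩
    · intro hh
      obtain ⟨b', hb'⟩ := (rel_Q p u t _).1 hh
      have h2 : (Sum.inr (u t, b, true) : U ⊕ U × U × Bool) = Sum.inr (u t, b', false) := hb'
      simp at h2
  s8 := by
    intro s i hi y h
    obtain ⟨i', hi', a, ha⟩ := (rel_P p u s _).1 h
    rw [hi] at hi'
    cases hi'
    refine ⟨![(Sum.inl a : U ⊕ U × U × Bool), (Sum.inl (u i) : U ⊕ U × U × Bool)], ?_, ?_⟩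
    · exact (rel_C p u _ _ _).2 ⟨a, u i, false, ha, rfl, rfl⟩
    · exact (rel_K p u i _).2 rfl
  s9 := by
    intro s i hi y h h'
    obtain ⟨a, ha⟩ := (rel_O p u _).1 h
    have h1 := (rel_K p u i _).1 h'
    refine ⟨![(Sum.inr (a, u i, false) : U ⊕ U × U × Bool),
      (Sum.inr (a, u i, true) : U ⊕ U × U × Bool)], ?_, ?_, ?_, ?_⟩
    · exact (rel_C p u _ _ _).2 ⟨a, u i, false, rfl, ha, h1⟩
    · exact (rel_C p u _ _ _).2 ⟨a, u i, true, rfl, ha, h1⟩
    · exact (rel_P p u s _).2 ⟨i, hi, a, rfl⟩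
    · intro hh
      obtain ⟨i', _, a', ha'⟩ := (rel_P p u s _).1 hh
      have h2 : (Sum.inr (a, u i, true) : U ⊕ U × U × Bool) = Sum.inr (a', u i', false) := ha'
      simp at h2
  s10 := by
    intro idx h y hy
    rcases h with h | ⟨h, h'⟩
    · exact rel_other p u idx h _ hy
    · have e : idx = Nat.pair 3 (Nat.unpair idx).2 := by
        rw [← h, Nat.pair_unpair]
      rw [e] at hy
      obtain ⟨i, hi, _⟩ := (rel_P p u _ _).1 hy
      rw [h'] at hi
      exact absurd hi (by simp)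
  s11 := by
    intro t s i hi y h0 h1 h2
    obtain ⟨a, b, e, e0, e1, e2⟩ := (rel_C p u _ _ _).1 h0
    have f1 := (rel_K p u t _).1 h1
    have f2 := (rel_K p u i _).1 h2
    rw [e1] at f1
    rw [e2] at f2
    have g1 := Sum.inl_injective f1
    have g2 := Sum.inl_injective f2
    subst g1 g2
    rw [rel_Q, rel_P, e0]
    constructor
    · rintro ⟨b, hb⟩
      simp only [Sum.inr.injEq, Prod.mk.injEq] at hb
      refine ⟨i, hi, u t, ?_⟩
      rw [hb.2.2]
    · rintro ⟨i', hi', a, ha⟩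
      simp only [Sum.inr.injEq, Prod.mk.injEq] at ha
      refine ⟨u i, ?_⟩
      rw [ha.2.2]
  s12 := by
    intro s s' i hi hi' y
    rw [rel_P, rel_P, hi, hi']
  s13 := by
    intro m y
    rw [rel_O' p u m, rel_O]

theorem CAx.of_equiv {p : Ev} {N N' : Type} [(RL arC).Structure N] [(RL arC).Structure N']
    (h : N ≅[RL arC] N') (hN : CAx p N) : CAx p N' where
  s1 := by
    have key : UDef arC Empty (fun M _ _ => ∀ y : Fin 5 → M, rel arC M 0 [y 0, y 1, y 2] →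
        ¬ rel arC M oI [y 0] ∧ rel arC M oI [y 1] ∧ rel arC M oI [y 2] ∧
        (rel arC M 0 [y 0, y 3, y 4] → y 1 = y 3 ∧ y 2 = y 4)) := by
      refine (UDef.all (α := Empty) (β := Fin 5) ((UDef.rel 0
        [Sum.inr 0, Sum.inr 1, Sum.inr 2]).imp ((UDef.rel oI [Sum.inr 0]).not.and
        ((UDef.rel oI [Sum.inr 1]).and ((UDef.rel oI [Sum.inr 2]).and
          ((UDef.rel 0 [Sum.inr 0, Sum.inr 3, Sum.inr 4]).imp
            ((UDef.eq (Sum.inr 1) (Sum.inr 3)).and (UDef.eq (Sum.inr 2) (Sum.inr 4))))))))).of_iff ?_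
      intro M _ v
      simp only [List.map_cons, List.map_nil, Sum.elim_inr]
    exact (key.transfer h Empty.elim Empty.elim).1 hN.s1
  s2 := by
    have key : UDef arC Empty (fun M _ _ => ∀ y : Fin 1 → M, ¬ rel arC M oI [y 0] →
        ∃ z : Fin 2 → M, rel arC M 0 [y 0, z 0, z 1]) := by
      refine (UDef.all (α := Empty) (β := Fin 1) ((UDef.rel oI [Sum.inr 0]).not.imp
        (UDef.ex (α := Empty ⊕ Fin 1) (β := Fin 2) (UDef.rel 0
          [Sum.inl (Sum.inr 0), Sum.inr 0, Sum.inr 1])))).of_iff ?_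
      intro M _ v
      simp only [List.map_cons, List.map_nil, Sum.elim_inr, Sum.elim_inl]
    exact (key.transfer h Empty.elim Empty.elim).1 hN.s2
  s3 := by
    have key : UDef arC Empty (fun M _ _ => ∀ y : Fin 2 → M, rel arC M oI [y 0] →
        rel arC M oI [y 1] → ∃ z : Fin 2 → M,
        z 0 ≠ z 1 ∧ rel arC M 0 [z 0, y 0, y 1] ∧ rel arC M 0 [z 1, y 0, y 1] ∧
        ∀ w : Fin 1 → M, rel arC M 0 [w 0, y 0, y 1] → w 0 = z 0 ∨ w 0 = z 1) := by
      refine (UDef.all (α := Empty) (β := Fin 2) ((UDef.rel oI [Sum.inr 0]).imp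
        ((UDef.rel oI [Sum.inr 1]).imp
        (UDef.ex (α := Empty ⊕ Fin 2) (β := Fin 2)
          ((UDef.eq (Sum.inr 0) (Sum.inr 1)).not.and
          ((UDef.rel 0 [Sum.inr 0, Sum.inl (Sum.inr 0), Sum.inl (Sum.inr 1)]).and
          ((UDef.rel 0 [Sum.inr 1, Sum.inl (Sum.inr 0), Sum.inl (Sum.inr 1)]).and
          (UDef.all (α := (Empty ⊕ Fin 2) ⊕ Fin 2) (β := Fin 1)
            ((UDef.rel 0 [Sum.inr 0, Sum.inl (Sum.inl (Sum.inr 0)),
              Sum.inl (Sum.inl (Sum.inr 1))]).imp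
            ((UDef.eq (Sum.inr 0) (Sum.inl (Sum.inr 0))).or
              (UDef.eq (Sum.inr 0) (Sum.inl (Sum.inr 1))))))))))))).of_iff ?_
      intro M _ v
      simp only [List.map_cons, List.map_nil, Sum.elim_inr, Sum.elim_inl, ne_eq]
    exact (key.transfer h Empty.elim Empty.elim).1 hN.s3
  s4 := by
    intro t
    have key : UDef arC Empty (fun M _ _ => ∃ y : Fin 1 → M, rel arC M oI [y 0] ∧
        rel arC M (kI t) [y 0]) := by
      refine (UDef.ex (α := Empty) (β := Fin 1) ((UDef.rel oI [Sum.inr 0]).and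
        (UDef.rel (kI t) [Sum.inr 0]))).of_iff ?_
      intro M _ v
      simp only [List.map_cons, List.map_nil, Sum.elim_inr]
    exact (key.transfer h Empty.elim Empty.elim).1 (hN.s4 t)
  s5 := by
    intro t t'
    have key : UDef arC Empty (fun M _ _ => ∀ y : Fin 2 → M, rel arC M (kI t) [y 0] →
        rel arC M (kI t') [y 1] → (y 0 = y 1 ↔ t = t')) := by
      refine (UDef.all (α := Empty) (β := Fin 2) ((UDef.rel (kI t) [Sum.inr 0]).imp
        ((UDef.rel (kI t') [Sum.inr 1]).imp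
          ((UDef.eq (Sum.inr 0) (Sum.inr 1)).iff (UDef.const (t = t')))))).of_iff ?_
      intro M _ v
      simp only [List.map_cons, List.map_nil, Sum.elim_inr]
    exact (key.transfer h Empty.elim Empty.elim).1 (hN.s5 t t')
  s6 := by
    intro t
    have key : UDef arC Empty (fun M _ _ => ∀ y : Fin 1 → M, rel arC M (qI t) [y 0] →
        ∃ z : Fin 2 → M, rel arC M 0 [y 0, z 0, z 1] ∧ rel arC M (kI t) [z 0]) := by
      refine (UDef.all (α := Empty) (β := Fin 1) ((UDef.rel (qI t) [Sum.inr 0]).imp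
        (UDef.ex (α := Empty ⊕ Fin 1) (β := Fin 2) ((UDef.rel 0
          [Sum.inl (Sum.inr 0), Sum.inr 0, Sum.inr 1]).and
            (UDef.rel (kI t) [Sum.inr 0]))))).of_iff ?_
      intro M _ v
      simp only [List.map_cons, List.map_nil, Sum.elim_inr, Sum.elim_inl]
    exact (key.transfer h Empty.elim Empty.elim).1 (hN.s6 t)
  s7 := by
    intro t
    have key : UDef arC Empty (fun M _ _ => ∀ y : Fin 2 → M, rel arC M (kI t) [y 0] →
        rel arC M oI [y 1] → ∃ z : Fin 2 → M, rel arC M 0 [z 0, y 0, y 1] ∧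
        rel arC M 0 [z 1, y 0, y 1] ∧ rel arC M (qI t) [z 0] ∧ ¬ rel arC M (qI t) [z 1]) := by
      refine (UDef.all (α := Empty) (β := Fin 2) ((UDef.rel (kI t) [Sum.inr 0]).imp
        ((UDef.rel oI [Sum.inr 1]).imp
        (UDef.ex (α := Empty ⊕ Fin 2) (β := Fin 2)
          ((UDef.rel 0 [Sum.inr 0, Sum.inl (Sum.inr 0), Sum.inl (Sum.inr 1)]).and
          ((UDef.rel 0 [Sum.inr 1, Sum.inl (Sum.inr 0), Sum.inl (Sum.inr 1)]).and
          ((UDef.rel (qI t) [Sum.inr 0]).and (UDef.rel (qI t) [Sum.inr 1]).not))))))).of_iff ?_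
      intro M _ v
      simp only [List.map_cons, List.map_nil, Sum.elim_inr, Sum.elim_inl]
    exact (key.transfer h Empty.elim Empty.elim).1 (hN.s7 t)
  s8 := by
    intro s i hi
    have key : UDef arC Empty (fun M _ _ => ∀ y : Fin 1 → M, rel arC M (pI s) [y 0] →
        ∃ z : Fin 2 → M, rel arC M 0 [y 0, z 0, z 1] ∧ rel arC M (kI i) [z 1]) := by
      refine (UDef.all (α := Empty) (β := Fin 1) ((UDef.rel (pI s) [Sum.inr 0]).imp
        (UDef.ex (α := Empty ⊕ Fin 1) (β := Fin 2) ((UDef.rel 0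
          [Sum.inl (Sum.inr 0), Sum.inr 0, Sum.inr 1]).and
            (UDef.rel (kI i) [Sum.inr 1]))))).of_iff ?_
      intro M _ v
      simp only [List.map_cons, List.map_nil, Sum.elim_inr, Sum.elim_inl]
    exact (key.transfer h Empty.elim Empty.elim).1 (hN.s8 s i hi)
  s9 := by
    intro s i hi
    have key : UDef arC Empty (fun M _ _ => ∀ y : Fin 2 → M, rel arC M oI [y 0] →
        rel arC M (kI i) [y 1] → ∃ z : Fin 2 → M, rel arC M 0 [z 0, y 0, y 1] ∧
        rel arC M 0 [z 1, y 0, y 1] ∧ rel arC M (pI s) [z 0] ∧ ¬ rel arC M (pI s) [z 1]) := by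
      refine (UDef.all (α := Empty) (β := Fin 2) ((UDef.rel oI [Sum.inr 0]).imp
        ((UDef.rel (kI i) [Sum.inr 1]).imp
        (UDef.ex (α := Empty ⊕ Fin 2) (β := Fin 2)
          ((UDef.rel 0 [Sum.inr 0, Sum.inl (Sum.inr 0), Sum.inl (Sum.inr 1)]).and
          ((UDef.rel 0 [Sum.inr 1, Sum.inl (Sum.inr 0), Sum.inl (Sum.inr 1)]).and
          ((UDef.rel (pI s) [Sum.inr 0]).and (UDef.rel (pI s) [Sum.inr 1]).not))))))).of_iff ?_
      intro M _ v
      simp only [List.map_cons, List.map_nil, Sum.elim_inr, Sum.elim_inl]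
    exact (key.transfer h Empty.elim Empty.elim).1 (hN.s9 s i hi)
  s10 := by
    intro idx hidx
    have key : UDef arC Empty (fun M _ _ => ∀ y : Fin 1 → M, ¬ rel arC M (idx + 1) [y 0]) := by
      refine (UDef.all (α := Empty) (β := Fin 1) (UDef.rel (idx + 1) [Sum.inr 0]).not).of_iff ?_
      intro M _ v
      simp only [List.map_cons, List.map_nil, Sum.elim_inr]
    exact (key.transfer h Empty.elim Empty.elim).1 (hN.s10 idx hidx)
  s11 := by
    intro t s i hi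
    have key : UDef arC Empty (fun M _ _ => ∀ y : Fin 3 → M, rel arC M 0 [y 0, y 1, y 2] →
        rel arC M (kI t) [y 1] → rel arC M (kI i) [y 2] →
        (rel arC M (qI t) [y 0] ↔ rel arC M (pI s) [y 0])) := by
      refine (UDef.all (α := Empty) (β := Fin 3) ((UDef.rel 0
        [Sum.inr 0, Sum.inr 1, Sum.inr 2]).imp ((UDef.rel (kI t) [Sum.inr 1]).imp
        ((UDef.rel (kI i) [Sum.inr 2]).imp ((UDef.rel (qI t) [Sum.inr 0]).iff
          (UDef.rel (pI s) [Sum.inr 0])))))).of_iff ?_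
      intro M _ v
      simp only [List.map_cons, List.map_nil, Sum.elim_inr]
    exact (key.transfer h Empty.elim Empty.elim).1 (hN.s11 t s i hi)
  s12 := by
    intro s s' i hi hi'
    have key : UDef arC Empty (fun M _ _ => ∀ y : Fin 1 → M,
        (rel arC M (pI s) [y 0] ↔ rel arC M (pI s') [y 0])) := by
      refine (UDef.all (α := Empty) (β := Fin 1) ((UDef.rel (pI s) [Sum.inr 0]).iff
          (UDef.rel (pI s') [Sum.inr 0]))).of_iff ?_
      intro M _ v
      simp only [List.map_cons, List.map_nil, Sum.elim_inr]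
    exact (key.transfer h Empty.elim Empty.elim).1 (hN.s12 s s' i hi hi')
  s13 := by
    intro m
    have key : UDef arC Empty (fun M _ _ => ∀ y : Fin 1 → M,
        (rel arC M (Nat.pair 0 m + 1) [y 0] ↔ rel arC M oI [y 0])) := by
      refine (UDef.all (α := Empty) (β := Fin 1) ((UDef.rel (Nat.pair 0 m + 1) [Sum.inr 0]).iff
          (UDef.rel oI [Sum.inr 0]))).of_iff ?_
      intro M _ v
      simp only [List.map_cons, List.map_nil, Sum.elim_inr]
    exact (key.transfer h Empty.elim Empty.elim).1 (hN.s13 m)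

end Pool.Agent.H494_SA
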