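import Pool.Agent.H494_SA.Inv

/-! Strong constructivizations of the models. -/

open FirstOrder Cardinal FirstOrder.Language

namespace Pool.Agent.H494_SA

open Pool.Agent.H494_SCM

theorem cA_comp : Computable cA := by
  unfold cA
  exact c_ite (cp_eq (c_mod Computable.id (Computable.const 2)) (Computable.const 0))
    (c_div Computable.id (Computable.const 2))
    (c_up1 (c_div Computable.id (Computable.const 2)))

theorem cB_comp : Computable cB :=
  c_div (c_up2 (c_div Computable.id (Computable.const 2))) (Computable.const 2)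

theorem cE_comp : Computable cE :=
  (cp_eq (c_mod (c_up2 (c_div Computable.id (Computable.const 2))) (Computable.const 2))
    (Computable.const 1)).decide

theorem nu_even (s : ℕ → ℕ → Bool) {x : ℕ} (h : x % 2 = 0) : nu s x = Sum.inl (cA x) := by
  unfold nu de
  rw [if_pos h]
  rfl

theorem nu_odd (s : ℕ → ℕ → Bool) {x : ℕ} (h : x % 2 = 1) :
    nu s x = Sum.inr (cA x, cB x, xor (cE x) (s (cA x) (cB x))) := by
  unfold nu de
  rw [if_neg (by omega)]
  rfl

theorem nu_inl_iff (s : ℕ → ℕ → Bool) (x a : ℕ) :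
    nu s x = Sum.inl a ↔ x % 2 = 0 ∧ cA x = a := by
  rcases Nat.mod_two_eq_zero_or_one x with h | h
  · rw [nu_even s h]
    constructor
    · intro hh; exact ⟨h, Sum.inl_injective hh⟩
    · rintro ⟨_, rfl⟩; rfl
  · rw [nu_odd s h]
    constructor
    · intro hh; exact absurd hh Sum.inr_ne_inl
    · rintro ⟨h', _⟩; omega

theorem nu_inr_iff (s : ℕ → ℕ → Bool) (x a b : ℕ) (e : Bool) :
    nu s x = Sum.inr (a, b, e) ↔ x % 2 = 1 ∧ cA x = a ∧ cB x = b ∧ xor (cE x) (s a b) = e := by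
  rcases Nat.mod_two_eq_zero_or_one x with h | h
  · rw [nu_even s h]
    constructor
    · intro hh; exact absurd hh Sum.inl_ne_inr
    · rintro ⟨h', _⟩; omega
  · rw [nu_odd s h]
    constructor
    · intro hh
      have := Sum.inr_injective hh
      simp only [Prod.mk.injEq] at this
      obtain ⟨rfl, rfl, h3⟩ := this
      exact ⟨h, rfl, rfl, h3⟩
    · rintro ⟨_, rfl, rfl, rfl⟩; rfl

/-- the atomic diagram in terms of numbers -/
def atP (p : Ev) (j : ℕ) (w : ℕ × ℕ → Bool) (q : ℕ × List ℕ) : Prop :=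
  (q.1 = 0 ∧ q.2.length = 3 ∧ (q.2.getD 0 0) % 2 = 1 ∧ (q.2.getD 1 0) % 2 = 0 ∧
    (q.2.getD 2 0) % 2 = 0 ∧ cA (q.2.getD 0 0) = cA (q.2.getD 1 0) ∧
    cB (q.2.getD 0 0) = cA (q.2.getD 2 0)) ∨
  (q.1 ≠ 0 ∧ q.2.length = 1 ∧
    (((Nat.unpair (q.1 - 1)).1 = 0 ∧ (q.2.getD 0 0) % 2 = 0) ∨
    ((Nat.unpair (q.1 - 1)).1 = 1 ∧ (q.2.getD 0 0) % 2 = 0 ∧
      cA (q.2.getD 0 0) = (Nat.unpair (q.1 - 1)).2 + j) ∨
    ((Nat.unpair (q.1 - 1)).1 = 2 ∧ (q.2.getD 0 0) % 2 = 1 ∧
      cA (q.2.getD 0 0) = (Nat.unpair (q.1 - 1)).2 + j ∧ cE (q.2.getD 0 0) = false) ∨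
    ((Nat.unpair (q.1 - 1)).1 = 3 ∧ (q.2.getD 0 0) % 2 = 1 ∧
      p.ev (Nat.unpair (q.1 - 1)).2 = some (cB (q.2.getD 0 0) - j) ∧
      j ≤ cB (q.2.getD 0 0) ∧
      xor (cE (q.2.getD 0 0)) (w (cA (q.2.getD 0 0), (Nat.unpair (q.1 - 1)).2)) = false)))

theorem atP_comp (p : Ev) (hp : Computable p.ev) (j : ℕ) (w : ℕ × ℕ → Bool) (hw : Computable w) :
    ComputablePred (atP p j w) := by
  have q1 : Computable (fun q : ℕ × List ℕ => q.1) := Computable.fst
  have q2 : Computable (fun q : ℕ × List ℕ => q.2) := Computable.snd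
  have g : ∀ k, Computable (fun q : ℕ × List ℕ => q.2.getD k 0) :=
    fun k => cp_getD q2 (Computable.const k)
  have kk : ∀ k : ℕ, Computable (fun _ : ℕ × List ℕ => k) := fun k => Computable.const k
  have ql : Computable (fun q : ℕ × List ℕ => q.2.length) := Computable.list_length.comp q2
  have tg : Computable (fun q : ℕ × List ℕ => (Nat.unpair (q.1 - 1)).1) := c_up1 (c_sub q1 (kk 1))
  have tm : Computable (fun q : ℕ × List ℕ => (Nat.unpair (q.1 - 1)).2) := c_up2 (c_sub q1 (kk 1))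
  have gm : ∀ k, Computable (fun q : ℕ × List ℕ => (q.2.getD k 0) % 2) :=
    fun k => c_mod (g k) (kk 2)
  have gA : ∀ k, Computable (fun q : ℕ × List ℕ => cA (q.2.getD k 0)) :=
    fun k => cA_comp.comp (g k)
  have gB : ∀ k, Computable (fun q : ℕ × List ℕ => cB (q.2.getD k 0)) :=
    fun k => cB_comp.comp (g k)
  have gE : Computable (fun q : ℕ × List ℕ => cE (q.2.getD 0 0)) := cE_comp.comp (g 0)
  have hx : Computable (fun q : ℕ × List ℕ => xor (cE (q.2.getD 0 0))
      (w (cA (q.2.getD 0 0), (Nat.unpair (q.1 - 1)).2))) :=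
    (Primrec.dom_bool₂ xor).to_comp.comp gE (hw.comp (Computable.pair (gA 0) tm))
  refine cp_or (cp_and (cp_eq q1 (kk 0)) (cp_and (cp_eq ql (kk 3)) (cp_and (cp_eq (gm 0) (kk 1))
    (cp_and (cp_eq (gm 1) (kk 0)) (cp_and (cp_eq (gm 2) (kk 0)) (cp_and (cp_eq (gA 0) (gA 1))
      (cp_eq (gB 0) (gA 2)))))))) ?_
  refine cp_and (cp_not (cp_eq q1 (kk 0))) (cp_and (cp_eq ql (kk 1)) ?_)
  refine cp_or (cp_and (cp_eq tg (kk 0)) (cp_eq (gm 0) (kk 0))) ?_
  refine cp_or (cp_and (cp_eq tg (kk 1)) (cp_and (cp_eq (gm 0) (kk 0))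
    (cp_eq (gA 0) (c_add tm (kk j))))) ?_
  refine cp_or (cp_and (cp_eq tg (kk 2)) (cp_and (cp_eq (gm 0) (kk 1)) (cp_and
    (cp_eq (gA 0) (c_add tm (kk j))) (cp_eq gE (Computable.const false))))) ?_
  refine cp_and (cp_eq tg (kk 3)) (cp_and (cp_eq (gm 0) (kk 1)) (cp_and
    (cp_eq (hp.comp tm) (Computable.option_some.comp (c_sub (gB 0) (kk j)))) (cp_and
      (cp_le (kk j) (gB 0)) (cp_eq hx (Computable.const false)))))

theorem atP_iff (p : Ev) (j : ℕ) (s : ℕ → ℕ → Bool) (w : ℕ × ℕ → Bool)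
    (H1 : ∀ t b, s (t + j) b = false)
    (H2 : ∀ a m i, p.ev m = some i → s a (i + j) = w (a, m)) (q : ℕ × List ℕ) :
    rel arC (Mj p j) q.1 (q.2.map (nu s)) ↔ atP p j w q := by
  obtain ⟨i, L⟩ := q
  cases i with
  | zero =>
    match L with
    | [x, y, z] =>
      refine (rel_C p (mk j) _ _ _).trans ?_
      unfold atP
      simp only [List.getD_cons_zero, List.getD_cons_succ, List.length_cons, List.length_nil,
        nu_inl_iff, nu_inr_iff]
      constructor
      · rintro ⟨r, a, e, ⟨h1, h2, h3, h4⟩, ⟨h5, h6⟩, h7, h8⟩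
        exact Or.inl ⟨trivial, trivial, h1, h5, h7, h2.trans h6.symm, h3.trans h8.symm⟩
      · rintro (⟨_, _, h1, h5, h7, h2, h3⟩ | ⟨h, _⟩)
        · exact ⟨_, _, _, ⟨h1, rfl, rfl, rfl⟩, ⟨h5, h2.symm⟩, h7, h3.symm⟩
        · exact absurd rfl h
    | [] =>
      constructor
      · intro h; exact absurd (rel_length h) (by simp [arC])
      · rintro (⟨_, h, _⟩ | ⟨h, _⟩)
        · simp at h
        · exact absurd rfl h
    | [_] =>
      constructor
      · intro h; exact absurd (rel_length h) (by simp [arC])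
      · rintro (⟨_, h, _⟩ | ⟨h, _⟩)
        · simp at h
        · exact absurd rfl h
    | [_, _] =>
      constructor
      · intro h; exact absurd (rel_length h) (by simp [arC])
      · rintro (⟨_, h, _⟩ | ⟨h, _⟩)
        · simp at h
        · exact absurd rfl h
    | _ :: _ :: _ :: _ :: _ =>
      constructor
      · intro h; exact absurd (rel_length h) (by simp [arC])
      · rintro (⟨_, h, _⟩ | ⟨h, _⟩)
        · simp at h
        · exact absurd rfl h
  | succ idx =>
    match L with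
    | [x] =>
      obtain ⟨tag, m, rfl⟩ : ∃ tag m, idx = Nat.pair tag m := ⟨_, _, (Nat.pair_unpair idx).symm⟩
      unfold atP
      simp only [List.getD_cons_zero, List.length_cons, List.length_nil, Nat.add_sub_cancel,
        Nat.unpair_pair, List.map_cons, List.map_nil]
      match tag with
      | 0 =>
        refine (rel_O' p (mk j) m _).trans ?_
        simp only [nu_inl_iff]
        constructor
        · rintro ⟨y, h, _⟩
          exact Or.inr ⟨by omega, trivial, Or.inl ⟨trivial, h⟩⟩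
        · rintro (⟨h, _⟩ | ⟨_, _, ⟨_, h⟩ | ⟨h, _⟩ | ⟨h, _⟩ | ⟨h, _⟩⟩)
          · omega
          · exact ⟨_, h, rfl⟩
          · omega
          · omega
          · omega
      | 1 =>
        refine (rel_K p (mk j) m _).trans ?_
        rw [mk_apply, nu_inl_iff]
        constructor
        · rintro ⟨h, h'⟩
          exact Or.inr ⟨by omega, trivial, Or.inr (Or.inl ⟨rfl, h, h'⟩)⟩
        · rintro (⟨h, _⟩ | ⟨_, _, ⟨h, _⟩ | ⟨_, h, h'⟩ | ⟨h, _⟩ | ⟨h, _⟩⟩)
          · omega
          · omega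
          · exact ⟨h, h'⟩
          · omega
          · omega
      | 2 =>
        refine (rel_Q p (mk j) m _).trans ?_
        rw [mk_apply]
        simp only [nu_inr_iff, H1]
        constructor
        · rintro ⟨b, h1, h2, h3, h4⟩
          exact Or.inr ⟨by omega, trivial, Or.inr (Or.inr (Or.inl ⟨trivial, h1, h2, by simpa using h4⟩))⟩
        · rintro (⟨h, _⟩ | ⟨_, _, ⟨h, _⟩ | ⟨h, _⟩ | ⟨_, h1, h2, h3⟩ | ⟨h, _⟩⟩)
          · omega
          · omega
          · omega
          · exact ⟨_, h1, h2, rfl, by simpa using h3⟩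
          · omega
      | 3 =>
        refine (rel_P p (mk j) m _).trans ?_
        simp only [nu_inr_iff, mk_apply]
        constructor
        · rintro ⟨i, hi, a, h1, h2, h3, h4⟩
          rw [H2 a m i hi] at h4
          refine Or.inr ⟨by omega, trivial, Or.inr (Or.inr (Or.inr ⟨trivial, h1, ?_, by omega, ?_⟩))⟩
          · rw [h3, Nat.add_sub_cancel]; exact hi
          · rw [h2]; exact h4
        · rintro (⟨h, _⟩ | ⟨_, _, ⟨h, _⟩ | ⟨h, _⟩ | ⟨h, _⟩ | ⟨_, h1, h2, h3, h4⟩⟩)
          · omega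
          · omega
          · omega
          · omega
          · refine ⟨_, h2, _, h1, rfl, (Nat.sub_add_cancel h3).symm, ?_⟩
            rw [H2 _ m _ h2]
            exact h4
      | tag + 4 =>
        constructor
        · intro h
          exact absurd h (rel_other p (mk j) _ (by rw [Nat.unpair_pair]; show 4 ≤ tag + 4; omega) _)
        · rintro (⟨h, _⟩ | ⟨_, _, ⟨h, _⟩ | ⟨h, _⟩ | ⟨h, _⟩ | ⟨h, _⟩⟩) <;> omega
    | [] =>
      constructor
      · intro h; exact absurd (rel_length h) (by simp [arC])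
      · rintro (⟨h, _⟩ | ⟨_, h, _⟩)
        · exact absurd h (Nat.succ_ne_zero _)
        · simp at h
    | _ :: _ :: _ =>
      constructor
      · intro h; exact absurd (rel_length h) (by simp [arC])
      · rintro (⟨h, _⟩ | ⟨_, h, _⟩)
        · exact absurd h (Nat.succ_ne_zero _)
        · simp at h

theorem strong_copy (p : Ev) (hp : Computable p.ev) (j : ℕ) (s : ℕ → ℕ → Bool)
    (w : ℕ × ℕ → Bool) (hw : Computable w) (H1 : ∀ t b, s (t + j) b = false)
    (H2 : ∀ a m i, p.ev m = some i → s a (i + j) = w (a, m)) :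
    StrongConstr (ar := arC) (Mj p j) (nu s) := by
  refine strong_of_bound (ar := arC) (M := Mj p j) (nu s) (nu_surj s) ?_ ?_ (bet j) (bet_comp j)
    (hall p j s)
  · refine cp_of_iff (cp_eq Computable.fst Computable.snd) ?_
    intro q
    exact (nu_inj s).eq_iff
  · exact cp_of_iff (atP_comp p hp j w hw) (atP_iff p j s w H1 H2)

end Pool.Agent.H494_SA
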