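import Pool.Agent.H494_SCM.Defs

/-! Definitions: Goedel numbering of formulas, strong constructivizations, autoequivalence. -/

open FirstOrder Cardinal FirstOrder.Language

namespace Pool.Agent.H494_SA

open Pool.Agent.H494_SCM

/-- the atomic formula `x_i = x_j` (falsity if one of the variables is not among the first `n`) -/
def eqF (ar : ℕ → ℕ) (n i j : ℕ) : (RL ar).BoundedFormula Empty n :=
  if h : i < n ∧ j < n then
    Term.bdEqual (Term.var (Sum.inr ⟨i, h.1⟩)) (Term.var (Sum.inr ⟨j, h.2⟩))
  else ⊥

/-- the atomic formula `R_i(x_{l_0}, x_{l_1}, ...)` (falsity if the number of variables is not the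
arity of `R_i` or if one of the variables is not among the first `n`) -/
def relF (ar : ℕ → ℕ) (n i : ℕ) (l : List ℕ) : (RL ar).BoundedFormula Empty n :=
  if h : ar i = l.length ∧ ∀ x ∈ l, x < n then
    Relations.boundedFormula (L := RL ar) (⟨i, h.1⟩ : (RL ar).Relations l.length)
      (fun k => Term.var (Sum.inr ⟨l.get k, h.2 _ (List.get_mem l k)⟩))
  else ⊥

/-- the formula with Goedel number `c` and with free variables among the first `n` ones; the four
cases are equality, relation symbols, implication and universal quantification -/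
def fm (ar : ℕ → ℕ) : (c n : ℕ) → (RL ar).BoundedFormula Empty n
  | 0, _ => ⊥
  | c + 1, n =>
    match (Nat.unpair c).1 with
    | 0 => eqF ar n (Nat.unpair (Nat.unpair c).2).1 (Nat.unpair (Nat.unpair c).2).2
    | 1 => relF ar n (Nat.unpair (Nat.unpair c).2).1
        (Denumerable.ofNat (List ℕ) (Nat.unpair (Nat.unpair c).2).2)
    | 2 => (fm ar (Nat.unpair (Nat.unpair c).2).1 n).imp
        (fm ar (Nat.unpair (Nat.unpair c).2).2 n)
    | _ => (fm ar (Nat.unpair c).2 (n + 1)).all
termination_by c => c
decreasing_by
  · have h1 := Nat.unpair_right_le c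
    have h2 := Nat.unpair_left_le (Nat.unpair c).2
    omega
  · have h1 := Nat.unpair_right_le c
    have h2 := Nat.unpair_right_le (Nat.unpair c).2
    omega
  · have h1 := Nat.unpair_right_le c
    omega

/-- `ν` is a strong constructivization of `M`: a numbering of the universe of `M` for which the
elementary diagram is computable. The number `c` and the list `l` of numbers of parameters stand
for the statement that the formula number `c` holds of these parameters. -/
def StrongConstr {ar : ℕ → ℕ} (M : Type) [(RL ar).Structure M] (ν : ℕ → M) : Prop :=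
  Function.Surjective ν ∧
  ComputablePred fun p : ℕ × List ℕ =>
    (fm ar p.1 p.2.length).Realize default (fun k => ν (p.2.get k))

/-- `ν` and `μ` are autoequivalent: `φ ∘ ν = μ ∘ f` for an automorphism `φ` and a computable
function `f`. -/
def AutoEq {ar : ℕ → ℕ} (M : Type) [(RL ar).Structure M] (ν μ : ℕ → M) : Prop :=
  ∃ (φ : M ≃[RL ar] M) (f : ℕ → ℕ), Computable f ∧ ∀ n, φ (ν n) = μ (f n)

/-- all strong constructivizations are autoequivalent -/
def StronglyAutostable {ar : ℕ → ℕ} (M : Type) [(RL ar).Structure M] : Prop :=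
  ∀ ν μ : ℕ → M, StrongConstr (ar := ar) M ν → StrongConstr (ar := ar) M μ →
    AutoEq (ar := ar) M ν μ

/-- the set of consequences of `T` is computable -/
def DecidableTheory {ar : ℕ → ℕ} (T : (RL ar).Theory) : Prop :=
  ComputablePred fun c : ℕ => T ⊨ᵇ (fm ar c 0)

/-- `M` is saturated: every element of an elementary extension has a counterpart of the same type
over any finite tuple of `M`. -/
def IsSat {ar : ℕ → ℕ} {T : (RL ar).Theory}
    (M : FirstOrder.Language.Theory.ModelType.{0, 0, 0} T) : Prop :=
  ∀ (N : FirstOrder.Language.Theory.ModelType.{0, 0, 0} T) (f : M ↪ₑ[RL ar] N) (n : ℕ)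
    (a : Fin n → M) (b : N), ∃ c : M, ∀ φ : (RL ar).Formula (Fin (n + 1)),
      φ.Realize (Fin.snoc (f ∘ a) b : Fin (n + 1) → N) ↔
        φ.Realize (Fin.snoc a c : Fin (n + 1) → M)

end Pool.Agent.H494_SA
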