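import Pool.Agent.H494_SA.Auto

/-! The diagonal construction: two strong constructivizations of the second model. -/

open FirstOrder Cardinal FirstOrder.Language
open Nat.Partrec (Code)
open Nat.Partrec.Code

namespace Pool.Agent.H494_SA

open Pool.Agent.H494_SCM

/-- the number of the element `(0, i + 1, false)` -/
def nn (i : ℕ) : ℕ := 2 * Nat.pair 0 (2 * (i + 1)) + 1

theorem nn_eq (i : ℕ) : nn i = en (Sum.inr (0, i + 1, false)) := rfl

theorem nn_comp : Computable nn :=
  c_add (c_mul (Computable.const 2) (c_pair (Computable.const 0)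
    (c_mul (Computable.const 2) (c_add Computable.id (Computable.const 1))))) (Computable.const 1)

/-- the computation number `m` -/
def run (m : ℕ) : Option ℕ :=
  evaln (Nat.unpair m).2 (Denumerable.ofNat Code (Nat.unpair m).1) (nn (Nat.unpair m).1)

theorem run_comp : Computable run :=
  primrec_evaln.to_comp.comp (Computable.pair (Computable.pair (c_up2 Computable.id)
    ((Computable.ofNat Code).comp (c_up1 Computable.id))) (nn_comp.comp (c_up1 Computable.id)))

/-- the schedule -/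
def evD : Ev where
  ev m := (run m).map (fun _ => (Nat.unpair m).1)
  le s i h := by
    rw [Option.map_eq_some_iff] at h
    obtain ⟨_, _, rfl⟩ := h
    exact Nat.unpair_left_le s

theorem evD_comp : Computable evD.ev :=
  Computable.option_map run_comp ((c_up1 Computable.fst).to₂)

/-- the modification of the sheets -/
noncomputable def sD (a b : ℕ) : Bool :=
  open Classical in
  decide (a = 0 ∧ ∃ i, b = i + 1 ∧ nn i ∈ eval (Denumerable.ofNat Code i) (nn i))

/-- its computable approximation -/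
def wD (x : ℕ × ℕ) : Bool :=
  decide (x.1 = 0) && decide (run x.2 = some (nn (Nat.unpair x.2).1))

theorem wD_comp : Computable wD := by
  refine (Primrec.dom_bool₂ and).to_comp.comp (cp_eq Computable.fst (Computable.const 0)).decide ?_
  exact (cp_eq (run_comp.comp Computable.snd)
    (Computable.option_some.comp (nn_comp.comp (c_up1 Computable.snd)))).decide

theorem sD_H1 (t b : ℕ) : sD (t + 1) b = false := by
  unfold sD
  simp

theorem sD_H2 (a m i : ℕ) (h : evD.ev m = some i) : sD a (i + 1) = wD (a, m) := by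
  have h' : (run m).map (fun _ => (Nat.unpair m).1) = some i := h
  rw [Option.map_eq_some_iff] at h'
  obtain ⟨y, hy, rfl⟩ := h'
  have hrun : y ∈ eval (Denumerable.ofNat Code (Nat.unpair m).1) (nn (Nat.unpair m).1) :=
    evaln_sound (Option.mem_def.2 hy)
  unfold sD wD
  rw [Bool.eq_iff_iff]
  simp only [hy, decide_eq_true_eq, Bool.and_eq_true, Option.some.injEq]
  apply and_congr_right
  rintro _
  constructor
  · rintro ⟨j, hj, hj'⟩
    have : (Nat.unpair m).1 = j := Nat.succ_injective hj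
    subst this
    exact Part.mem_unique hrun hj'
  · intro h
    exact ⟨_, rfl, h ▸ hrun⟩

theorem strong_zero : StrongConstr (ar := arC) (Mj evD 1) (nu (fun _ _ => false)) :=
  strong_copy evD evD_comp 1 _ (fun _ => false) (Computable.const false) (fun _ _ => rfl)
    (fun _ _ _ _ => rfl)

theorem strong_one : StrongConstr (ar := arC) (Mj evD 1) (nu sD) :=
  strong_copy evD evD_comp 1 _ wD wD_comp sD_H1 sD_H2

/-- automorphisms fix the split fibers -/
theorem aut_fix (p : Ev) (φ : Mj p 1 ≃[RL arC] Mj p 1) {m k : ℕ} (hk : p.ev m = some k) :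
    φ (Sum.inr (0, k + 1, false) : ℕ ⊕ ℕ × ℕ × Bool) =
      (Sum.inr (0, k + 1, false) : ℕ ⊕ ℕ × ℕ × Bool) := by
  have hK : ∀ t (x : Mj p 1), φ x = (Sum.inl (t + 1) : ℕ ⊕ ℕ × ℕ × Bool) ↔
      x = (Sum.inl (t + 1) : ℕ ⊕ ℕ × ℕ × Bool) := by
    intro t x
    have h1 := rel_equiv φ (kI t) [x]
    exact (rel_K p (mk 1) t (φ x)).symm.trans (h1.trans (rel_K p (mk 1) t x))
  have h0 : φ (Sum.inl 0 : ℕ ⊕ ℕ × ℕ × Bool) = (Sum.inl 0 : ℕ ⊕ ℕ × ℕ × Bool) := by
    have h1 := rel_equiv φ oI [(Sum.inl 0 : ℕ ⊕ ℕ × ℕ × Bool)]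
    obtain ⟨y, hy⟩ := (rel_O p (mk 1) _).1 (h1.2 ((rel_O p (mk 1) _).2 ⟨0, rfl⟩))
    rcases y with _ | t
    · exact hy
    · have := (hK t _).1 hy
      exact absurd (Sum.inl_injective this) (by omega)
  have h1 := rel_equiv φ 0 [(Sum.inr (0, k + 1, false) : ℕ ⊕ ℕ × ℕ × Bool),
    (Sum.inl 0 : ℕ ⊕ ℕ × ℕ × Bool), (Sum.inl (k + 1) : ℕ ⊕ ℕ × ℕ × Bool)]
  obtain ⟨a, b, e, e1, e2, e3⟩ := (rel_C p (mk 1) _ _ _).1
    (h1.2 ((rel_C p (mk 1) _ _ _).2 ⟨0, k + 1, false, rfl, rfl, rfl⟩))
  have e2' : φ (Sum.inl 0 : ℕ ⊕ ℕ × ℕ × Bool) = (Sum.inl a : ℕ ⊕ ℕ × ℕ × Bool) := e2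
  have e3' : φ (Sum.inl (k + 1) : ℕ ⊕ ℕ × ℕ × Bool) = (Sum.inl b : ℕ ⊕ ℕ × ℕ × Bool) := e3
  rw [h0] at e2'
  rw [(hK k (Sum.inl (k + 1) : ℕ ⊕ ℕ × ℕ × Bool)).2 rfl] at e3'
  obtain rfl := Sum.inl_injective e2'
  obtain rfl := Sum.inl_injective e3'
  have h2 := rel_equiv φ (pI m) [(Sum.inr (0, k + 1, false) : ℕ ⊕ ℕ × ℕ × Bool)]
  obtain ⟨i, hi, a, ha⟩ := (rel_P p (mk 1) m _).1
    (h2.2 ((rel_P p (mk 1) m _).2 ⟨k, hk, 0, rfl⟩))
  have e1' : φ (Sum.inr (0, k + 1, false) : ℕ ⊕ ℕ × ℕ × Bool) =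
    (Sum.inr (0, k + 1, e) : ℕ ⊕ ℕ × ℕ × Bool) := e1
  have ha' : φ (Sum.inr (0, k + 1, false) : ℕ ⊕ ℕ × ℕ × Bool) =
    (Sum.inr (a, i + 1, false) : ℕ ⊕ ℕ × ℕ × Bool) := ha
  rw [e1'] at ha'
  have := Sum.inr_injective ha'
  simp only [Prod.mk.injEq] at this
  rw [e1', this.2.2]

theorem not_autoEq : ¬ AutoEq (ar := arC) (Mj evD 1) (nu (fun _ _ => false)) (nu sD) := by
  rintro ⟨φ, f, hf, hφ⟩
  obtain ⟨c, hc⟩ := exists_code.1 hf
  -- the index of the computable function
  let k := Encodable.encode c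
  have hk : Denumerable.ofNat Code k = c := Denumerable.ofNat_encode c
  have hev : eval (Denumerable.ofNat Code k) (nn k) = Part.some (f (nn k)) := by
    rw [hk, hc]
    simp
  have hmem : f (nn k) ∈ eval (Denumerable.ofNat Code k) (nn k) := by
    rw [hev]; exact Part.mem_some _
  obtain ⟨st, hst⟩ := evaln_complete.1 hmem
  have hrun : evD.ev (Nat.pair k st) = some k := by
    show (run (Nat.pair k st)).map (fun _ => (Nat.unpair (Nat.pair k st)).1) = some k
    unfold run
    rw [Nat.unpair_pair]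
    rw [Option.mem_def.1 hst]
    rfl
  have hfix := aut_fix evD φ hrun
  have h1 : nu (fun _ _ => false) (nn k) = Sum.inr (0, k + 1, false) := by
    have := nu_en (fun _ _ => false) (Sum.inr (0, k + 1, false))
    rw [nn_eq]
    simpa [fl] using this
  have h2 := hφ (nn k)
  have h3 : nu sD (f (nn k)) = Sum.inr (0, k + 1, false) := by
    rw [← h2]
    exact (congrArg φ h1).trans hfix
  have h4 : f (nn k) = en (fl sD (Sum.inr (0, k + 1, false))) := by
    apply nu_inj sD
    rw [nu_en, h3]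
  by_cases hD : nn k ∈ eval (Denumerable.ofNat Code k) (nn k)
  · have h5 : f (nn k) = nn k := by
      rw [hev] at hD
      exact (Part.mem_some_iff.1 hD).symm
    have h6 : sD 0 (k + 1) = true := by
      unfold sD
      simp only [decide_eq_true_eq]
      exact ⟨trivial, k, rfl, hD⟩
    rw [h5, nn_eq] at h4
    have h7 := congrArg de h4
    rw [de_en, de_en] at h7
    have h8 : (Sum.inr (0, k + 1, false) : X) = Sum.inr (0, k + 1, xor false (sD 0 (k + 1))) := h7
    rw [h6] at h8
    simp at h8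
  · have h6 : sD 0 (k + 1) = false := by
      unfold sD
      simp only [decide_eq_false_iff_not, not_and, not_exists]
      rintro _ i hi hh
      have : k = i := Nat.succ_injective hi
      subst this
      exact hD hh
    have h7 : fl sD (Sum.inr (0, k + 1, false)) = Sum.inr (0, k + 1, false) := by
      show (Sum.inr (0, k + 1, xor false (sD 0 (k + 1))) : X) = _
      rw [h6]
      rfl
    rw [h7, ← nn_eq] at h4
    apply hD
    rw [hev, h4]
    exact Part.mem_some _

end Pool.Agent.H494_SA
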