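import Pool.Agent.H494_SA.Defs
import Pool.Agent.H494_SCM.UDef
import Pool.Agent.H494_SCM.CompTools

/-! Computing truth with bounded search. -/

open FirstOrder Cardinal FirstOrder.Language
open Nat.Partrec (Code)

namespace Pool.Agent.H494_SA

open Pool.Agent.H494_SCM

variable {ar : ℕ → ℕ} {M : Type} [(RL ar).Structure M]

/-- truth of the formula number `c` at a list of numbers -/
def Hol (ar : ℕ → ℕ) (M : Type) [(RL ar).Structure M] (ν : ℕ → M) (c : ℕ) (L : List ℕ) : Prop :=
  (fm ar c L.length).Realize default (fun k : Fin L.length => ν (L.getD k 0))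

theorem hol_iff (ν : ℕ → M) (c : ℕ) (L : List ℕ) :
    (fm ar c L.length).Realize default (fun k => ν (L.get k)) ↔ Hol ar M ν c L := by
  unfold Hol
  apply Iff.of_eq
  congr 1
  funext k
  congr 1
  simp

theorem real_congr (c : ℕ) {n m : ℕ} (h : n = m) (g : ℕ → M) (g' : ℕ → M)
    (hg : ∀ k < n, g k = g' k) :
    (fm ar c n).Realize default (fun k : Fin n => g k) ↔
      (fm ar c m).Realize default (fun k : Fin m => g' k) := by
  subst h
  apply Iff.of_eq
  congr 1
  funext k
  exact hg k k.2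

theorem eqF_real (n i j : ℕ) (g : ℕ → M) :
    (eqF ar n i j).Realize default (fun k : Fin n => g k) ↔ i < n ∧ j < n ∧ g i = g j := by
  unfold eqF
  split_ifs with h
  · rw [BoundedFormula.realize_bdEqual]
    simp only [Term.realize_var, Sum.elim_inr]
    exact ⟨fun hh => ⟨h.1, h.2, hh⟩, fun hh => hh.2.2⟩
  · simp only [BoundedFormula.realize_bot, false_iff]
    rintro ⟨h1, h2, _⟩
    exact h ⟨h1, h2⟩

theorem relF_real (n i : ℕ) (l : List ℕ) (g : ℕ → M) :
    (relF ar n i l).Realize default (fun k : Fin n => g k) ↔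
      (∀ x ∈ l, x < n) ∧ rel ar M i (l.map g) := by
  unfold relF
  split_ifs with h
  · rw [BoundedFormula.realize_rel]
    rw [← rel_ofFn h.1]
    have e : List.ofFn (fun k : Fin l.length => Term.realize (L := RL ar)
        (Sum.elim (default : Empty → M) (fun k : Fin n => g k))
        (Term.var (Sum.inr ⟨l.get k, h.2 _ (List.get_mem l k)⟩))) = l.map g := by
      apply List.ext_get
      · simp
      · intro k h1 h2
        simp
    rw [e]
    exact ⟨fun hh => ⟨h.2, hh⟩, fun hh => hh.2⟩
  · simp only [BoundedFormula.realize_bot, false_iff]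
    rintro ⟨h1, h2⟩
    apply h
    refine ⟨?_, h1⟩
    have := rel_length h2
    rw [List.length_map] at this
    exact this.symm

variable (ν : ℕ → M)

theorem hol_zero (L : List ℕ) : ¬ Hol ar M ν 0 L := by
  unfold Hol fm
  simp

theorem hol_0 (c : ℕ) (L : List ℕ) (h : (Nat.unpair c).1 = 0) :
    Hol ar M ν (c + 1) L ↔ (Nat.unpair (Nat.unpair c).2).1 < L.length ∧
      (Nat.unpair (Nat.unpair c).2).2 < L.length ∧
      ν (L.getD (Nat.unpair (Nat.unpair c).2).1 0) =
        ν (L.getD (Nat.unpair (Nat.unpair c).2).2 0) := by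
  unfold Hol fm
  rw [h]
  exact eqF_real _ _ _ (fun k => ν (L.getD k 0))

theorem hol_1 (c : ℕ) (L : List ℕ) (h : (Nat.unpair c).1 = 1) :
    Hol ar M ν (c + 1) L ↔
      (∀ x ∈ Denumerable.ofNat (List ℕ) (Nat.unpair (Nat.unpair c).2).2, x < L.length) ∧
      rel ar M (Nat.unpair (Nat.unpair c).2).1
        ((Denumerable.ofNat (List ℕ) (Nat.unpair (Nat.unpair c).2).2).map
          (fun x => ν (L.getD x 0))) := by
  unfold Hol fm
  rw [h]
  exact relF_real _ _ _ (fun k => ν (L.getD k 0))

theorem hol_2 (c : ℕ) (L : List ℕ) (h : (Nat.unpair c).1 = 2) :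
    Hol ar M ν (c + 1) L ↔ (Hol ar M ν (Nat.unpair (Nat.unpair c).2).1 L →
      Hol ar M ν (Nat.unpair (Nat.unpair c).2).2 L) := by
  conv_lhs => unfold Hol fm
  rw [h]
  exact BoundedFormula.realize_imp

theorem snoc_real (c : ℕ) (L : List ℕ) (x : M) (m : ℕ) (hx : ν m = x) :
    (fm ar c (L.length + 1)).Realize default
      (Fin.snoc (fun k : Fin L.length => ν (L.getD k 0)) x : Fin (L.length + 1) → M) ↔
      Hol ar M ν c (L ++ [m]) := by
  unfold Hol
  have e : (Fin.snoc (fun k : Fin L.length => ν (L.getD k 0)) x : Fin (L.length + 1) → M) =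
      fun k : Fin (L.length + 1) => ν ((L ++ [m]).getD k 0) := by
    funext k
    refine Fin.lastCases ?_ (fun k => ?_) k
    · rw [Fin.snoc_last, ← hx]
      simp
    · rw [Fin.snoc_castSucc]
      congr 1
      simp
  rw [e]
  exact real_congr c (by simp) (fun k => ν ((L ++ [m]).getD k 0))
    (fun k => ν ((L ++ [m]).getD k 0)) (fun k _ => rfl)

theorem hol_3 (hν : Function.Surjective ν) (c : ℕ) (L : List ℕ) (h : 3 ≤ (Nat.unpair c).1) :
    Hol ar M ν (c + 1) L ↔ ∀ m, Hol ar M ν (Nat.unpair c).2 (L ++ [m]) := by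
  obtain ⟨t, ht⟩ := Nat.exists_eq_add_of_le h
  have e : fm ar (c + 1) L.length = (fm ar (Nat.unpair c).2 (L.length + 1)).all := by
    rw [fm]
    split
    · omega
    · omega
    · omega
    · rfl
  have e2 : Hol ar M ν (c + 1) L ↔ ∀ x : M, (fm ar (Nat.unpair c).2 (L.length + 1)).Realize
      default (Fin.snoc (fun k : Fin L.length => ν (L.getD k 0)) x : Fin (L.length + 1) → M) := by
    unfold Hol
    rw [e]
    exact BoundedFormula.realize_all
  rw [e2]
  constructor
  · intro H m
    exact (snoc_real ν _ L (ν m) m rfl).1 (H _)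
  · intro H x
    obtain ⟨m, hm⟩ := hν x
    exact (snoc_real ν _ L x m hm).2 (H m)

end Pool.Agent.H494_SA
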