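import Pool.Agent.H494_SA.Defs
import Pool.Agent.H494_SCM.Chain

/-! The family: a set `U` with marks and a two-sheeted cover of `U × U`. -/

open FirstOrder Cardinal FirstOrder.Language

namespace Pool.Agent.H494_SA

open Pool.Agent.H494_SCM

/-- a schedule of splittings -/
structure Ev where
  ev : ℕ → Option ℕ
  le : ∀ s i, ev s = some i → i ≤ s

/-- arities -/
def arC : ℕ → ℕ
  | 0 => 3
  | _ + 1 => 1

/-- action of injections -/
def cmap {U U' : Type} (f : U ↪ U') : U ⊕ U × U × Bool → U' ⊕ U' × U' × Bool :=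
  Sum.map f (Prod.map f (Prod.map f id))

theorem cmap_inl {U U' : Type} (f : U ↪ U') (x : U) : cmap f (Sum.inl x) = Sum.inl (f x) := rfl

theorem cmap_inr {U U' : Type} (f : U ↪ U') (a b : U) (e : Bool) :
    cmap f (Sum.inr (a, b, e)) = Sum.inr (f a, f b, e) := rfl

theorem cmap_inj {U U' : Type} (f : U ↪ U') : Function.Injective (cmap f) :=
  Function.Injective.sumMap f.injective
    (Function.Injective.prodMap f.injective
      (Function.Injective.prodMap f.injective Function.injective_id))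

theorem cmap_eq_inl {U U' : Type} (f : U ↪ U') (x : U ⊕ U × U × Bool) (a : U')
    (h : cmap f x = Sum.inl a) : ∃ a0, x = Sum.inl a0 ∧ f a0 = a := by
  rcases x with x | ⟨r0, a0, w0⟩
  · exact ⟨x, rfl, Sum.inl_injective h⟩
  · exact absurd h Sum.inr_ne_inl

theorem cmap_eq_inr {U U' : Type} (f : U ↪ U') (x : U ⊕ U × U × Bool) (a b : U') (e : Bool)
    (h : cmap f x = Sum.inr (a, b, e)) : ∃ a0 b0, x = Sum.inr (a0, b0, e) ∧ f a0 = a ∧
      f b0 = b := by
  rcases x with x | ⟨a0, b0, e0⟩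
  · exact absurd h Sum.inl_ne_inr
  · rw [cmap_inr] at h
    have h1 := Sum.inr_injective h
    simp only [Prod.mk.injEq] at h1
    exact ⟨a0, b0, by rw [h1.2.2], h1.1, h1.2.1⟩

/-- the unary relations -/
def cV (p : Ev) {U : Type} (u : ℕ ↪ U) (idx : ℕ) (L : List (U ⊕ U × U × Bool)) : Prop :=
  match (Nat.unpair idx).1 with
  | 0 => ∃ x, L = [Sum.inl x]
  | 1 => L = [Sum.inl (u (Nat.unpair idx).2)]
  | 2 => ∃ b, L = [Sum.inr (u (Nat.unpair idx).2, b, false)]
  | 3 => ∃ i, p.ev (Nat.unpair idx).2 = some i ∧ ∃ a, L = [Sum.inr (a, u i, false)]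
  | _ => False

theorem cV_nat (p : Ev) {U U' : Type} (f : U ↪ U') (u : ℕ ↪ U) (u' : ℕ ↪ U') (idx : ℕ)
    (L : List (U ⊕ U × U × Bool)) (h : ∀ t < (Nat.unpair idx).2 + 1, f (u t) = u' t) :
    cV p u' idx (L.map (cmap f)) ↔ cV p u idx L := by
  have hmk : ∀ t ≤ (Nat.unpair idx).2, ∀ a : U, (f a = u' t ↔ a = u t) := by
    intro t ht a
    rw [← h t (by omega)]
    exact f.injective.eq_iff
  unfold cV
  split
  · constructor
    · rintro ⟨x, hL⟩
      obtain ⟨y, l1, rfl, hy, hL⟩ := List.map_eq_cons_iff.1 hL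
      obtain rfl := List.map_eq_nil_iff.1 hL
      obtain ⟨a0, rfl, _⟩ := cmap_eq_inl f y _ hy
      exact ⟨a0, rfl⟩
    · rintro ⟨x, rfl⟩
      exact ⟨f x, rfl⟩
  · constructor
    · intro hx
      rw [← h _ (Nat.lt_succ_self _)] at hx
      exact List.map_injective_iff.2 (cmap_inj f) hx
    · intro hx
      rw [hx, ← h _ (Nat.lt_succ_self _)]
      rfl
  · constructor
    · rintro ⟨b, hL⟩
      obtain ⟨y, l1, rfl, hy, hL⟩ := List.map_eq_cons_iff.1 hL
      obtain rfl := List.map_eq_nil_iff.1 hL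
      obtain ⟨a0, b0, rfl, ha, _⟩ := cmap_eq_inr f y _ _ _ hy
      rw [hmk _ le_rfl] at ha
      subst ha
      exact ⟨b0, rfl⟩
    · rintro ⟨b, rfl⟩
      refine ⟨f b, ?_⟩
      rw [← h _ (Nat.lt_succ_self _)]
      rfl
  · apply exists_congr
    intro i
    apply and_congr_right
    intro hi
    have hle := p.le _ _ hi
    constructor
    · rintro ⟨a, hL⟩
      obtain ⟨y, l1, rfl, hy, hL⟩ := List.map_eq_cons_iff.1 hL
      obtain rfl := List.map_eq_nil_iff.1 hL
      obtain ⟨a0, b0, rfl, _, hb⟩ := cmap_eq_inr f y _ _ _ hy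
      rw [hmk _ hle] at hb
      subst hb
      exact ⟨a0, rfl⟩
    · rintro ⟨a, rfl⟩
      refine ⟨f a, ?_⟩
      rw [← h i (by omega)]
      rfl
  · exact Iff.rfl

open Classical in
/-- the family -/
noncomputable def fam (p : Ev) : Fam where
  F U := U ⊕ U × U × Bool
  map f := cmap f
  map_id := by rintro U (x | ⟨a, b, c⟩) <;> rfl
  map_comp := by rintro U U' U'' f g (x | ⟨a, b, c⟩) <;> rfl
  map_inj := by intro U U' f; exact cmap_inj f
  supp := fun x => match x with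
    | Sum.inl x => {x}
    | Sum.inr (a, b, _) => {a, b}
  supp_map := by
    rintro U U' f (x | ⟨a, b, c⟩)
    · simp [cmap]
    · simp [cmap, Finset.map_insert]
  map_congr := by
    rintro U U' f g (x | ⟨a, b, c⟩) h
    · simp only [Finset.mem_singleton, forall_eq] at h
      rw [cmap_inl, cmap_inl, h]
    · simp only [Finset.mem_insert, Finset.mem_singleton, forall_eq_or_imp, forall_eq] at h
      rw [cmap_inr, cmap_inr, h.1, h.2]
  exists_map := by
    rintro U U' f (x | ⟨a, b, c⟩) h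
    · simp only [Finset.mem_singleton, forall_eq] at h
      obtain ⟨y, rfl⟩ := h
      exact ⟨Sum.inl y, rfl⟩
    · simp only [Finset.mem_insert, Finset.mem_singleton, forall_eq_or_imp, forall_eq] at h
      obtain ⟨⟨a', rfl⟩, ⟨b', rfl⟩⟩ := h
      exact ⟨Sum.inr (a', b', c), rfl⟩
  faithful := by
    intro U U' f g h
    ext x
    exact Sum.inl_injective (h (Sum.inl x))
  R L := ∃ a b e, L = [Sum.inr (a, b, e), Sum.inl a, Sum.inl b]
  V := cV p
  K idx := (Nat.unpair idx).2 + 1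
  R_nat := by
    intro U U' f L
    constructor
    · rintro ⟨a, b, e, hL⟩
      obtain ⟨x, l1, rfl, hx, hL⟩ := List.map_eq_cons_iff.1 hL
      obtain ⟨y, l1, rfl, hy, hL⟩ := List.map_eq_cons_iff.1 hL
      obtain ⟨z, l1, rfl, hz, hL⟩ := List.map_eq_cons_iff.1 hL
      obtain rfl := List.map_eq_nil_iff.1 hL
      obtain ⟨a0, b0, rfl, rfl, rfl⟩ := cmap_eq_inr f x _ _ _ hx
      obtain ⟨r1, rfl, hr⟩ := cmap_eq_inl f y _ hy
      obtain ⟨a1, rfl, ha⟩ := cmap_eq_inl f z _ hz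
      rw [f.injective hr, f.injective ha]
      exact ⟨a0, b0, e, rfl⟩
    · rintro ⟨a, b, e, rfl⟩
      exact ⟨f a, f b, e, rfl⟩
  V_nat := cV_nat p

/-- index of the sort predicate -/
abbrev oI : ℕ := Nat.pair 0 0 + 1
/-- index of the mark predicates -/
abbrev kI (t : ℕ) : ℕ := Nat.pair 1 t + 1
/-- index of the row splitting predicates -/
abbrev qI (t : ℕ) : ℕ := Nat.pair 2 t + 1
/-- index of the column splitting predicates -/
abbrev pI (t : ℕ) : ℕ := Nat.pair 3 t + 1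

theorem rel_C (p : Ev) {U : Type} (u : ℕ ↪ U) (v r a : U ⊕ U × U × Bool) :
    rel arC ((fam p).Car arC u) 0 [v, r, a] ↔ ∃ (r' a' : U) (e : Bool),
      v = Sum.inr (r', a', e) ∧ r = Sum.inl r' ∧ a = Sum.inl a' := by
  refine (rel_Mk _ _ _).trans ?_
  have h1 : (fam p).str u 0 [v, r, a] ↔ ∃ (r' a' : U) (e : Bool),
      v = Sum.inr (r', a', e) ∧ r = Sum.inl r' ∧ a = Sum.inl a' := by
    show (∃ (r' a' : U) (e : Bool), [v, r, a] = [Sum.inr (r', a', e), Sum.inl r', Sum.inl a'])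
      ↔ _
    constructor
    · rintro ⟨r', a', w', h⟩
      simp only [List.cons.injEq, and_true] at h
      exact ⟨r', a', w', h⟩
    · rintro ⟨r', a', w', rfl, rfl, rfl⟩
      exact ⟨r', a', w', rfl⟩
  exact (and_iff_right rfl).trans h1

theorem rel_O' (p : Ev) {U : Type} (u : ℕ ↪ U) (m : ℕ) (x : U ⊕ U × U × Bool) :
    rel arC ((fam p).Car arC u) (Nat.pair 0 m + 1) [x] ↔ ∃ y, x = Sum.inl y := by
  refine (rel_Mk _ _ _).trans ?_
  have h1 : (fam p).str u (Nat.pair 0 m + 1) [x] ↔ ∃ y, x = Sum.inl y := by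
    show cV p u (Nat.pair 0 m) [x] ↔ _
    unfold cV
    rw [Nat.unpair_pair]
    constructor
    · rintro ⟨y, hy⟩; exact ⟨y, (List.cons.inj hy).1⟩
    · rintro ⟨y, rfl⟩; exact ⟨y, rfl⟩
  exact (and_iff_right rfl).trans h1

theorem rel_O (p : Ev) {U : Type} (u : ℕ ↪ U) (x : U ⊕ U × U × Bool) :
    rel arC ((fam p).Car arC u) oI [x] ↔ ∃ y, x = Sum.inl y := rel_O' p u 0 x

theorem rel_K (p : Ev) {U : Type} (u : ℕ ↪ U) (t : ℕ) (x : U ⊕ U × U × Bool) :
    rel arC ((fam p).Car arC u) (kI t) [x] ↔ x = Sum.inl (u t) := by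
  refine (rel_Mk _ _ _).trans ?_
  have h1 : (fam p).str u (kI t) [x] ↔ x = Sum.inl (u t) := by
    show cV p u (Nat.pair 1 t) [x] ↔ _
    unfold cV
    rw [Nat.unpair_pair]
    constructor
    · intro hy; exact (List.cons.inj hy).1
    · rintro rfl; rfl
  exact (and_iff_right rfl).trans h1

theorem rel_Q (p : Ev) {U : Type} (u : ℕ ↪ U) (t : ℕ) (x : U ⊕ U × U × Bool) :
    rel arC ((fam p).Car arC u) (qI t) [x] ↔ ∃ b, x = Sum.inr (u t, b, false) := by
  refine (rel_Mk _ _ _).trans ?_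
  have h1 : (fam p).str u (qI t) [x] ↔ ∃ b, x = Sum.inr (u t, b, false) := by
    show cV p u (Nat.pair 2 t) [x] ↔ _
    unfold cV
    rw [Nat.unpair_pair]
    constructor
    · rintro ⟨b, hy⟩; exact ⟨b, (List.cons.inj hy).1⟩
    · rintro ⟨b, rfl⟩; exact ⟨b, rfl⟩
  exact (and_iff_right rfl).trans h1

theorem rel_P (p : Ev) {U : Type} (u : ℕ ↪ U) (s : ℕ) (x : U ⊕ U × U × Bool) :
    rel arC ((fam p).Car arC u) (pI s) [x] ↔
      ∃ i, p.ev s = some i ∧ ∃ a, x = Sum.inr (a, u i, false) := by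
  refine (rel_Mk _ _ _).trans ?_
  have h1 : (fam p).str u (pI s) [x] ↔
      ∃ i, p.ev s = some i ∧ ∃ a, x = Sum.inr (a, u i, false) := by
    show cV p u (Nat.pair 3 s) [x] ↔ _
    unfold cV
    rw [Nat.unpair_pair]
    constructor
    · rintro ⟨i, hi, a, hy⟩; exact ⟨i, hi, a, (List.cons.inj hy).1⟩
    · rintro ⟨i, hi, a, rfl⟩; exact ⟨i, hi, a, rfl⟩
  exact (and_iff_right rfl).trans h1

theorem rel_other (p : Ev) {U : Type} (u : ℕ ↪ U) (idx : ℕ) (h : 4 ≤ (Nat.unpair idx).1)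
    (x : U ⊕ U × U × Bool) : ¬ rel arC ((fam p).Car arC u) (idx + 1) [x] := by
  intro hh
  have h2 : cV p u idx [x] := ((rel_Mk _ _ _).1 hh).2
  unfold cV at h2
  split at h2 <;> omega

end Pool.Agent.H494_SA
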