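import Pool.Agent.H494_SA.Step
import Pool.Agent.H494_SCM.Diag

/-! A criterion for strong constructivizations. -/

open FirstOrder Cardinal FirstOrder.Language
open Nat.Partrec (Code)
open Nat.Partrec.Code

namespace Pool.Agent.H494_SA

open Pool.Agent.H494_SCM

/-- tag of a formula code -/
def tg (c : ℕ) : ℕ := (Nat.unpair (c - 1)).1
/-- first datum of a formula code -/
def d0 (c : ℕ) : ℕ := (Nat.unpair (c - 1)).2
/-- second datum of a formula code -/
def d1 (c : ℕ) : ℕ := (Nat.unpair (d0 c)).1
/-- third datum of a formula code -/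
def d2 (c : ℕ) : ℕ := (Nat.unpair (d0 c)).2

theorem tg_comp : Computable tg := c_up1 (c_sub Computable.id (Computable.const 1))
theorem d0_comp : Computable d0 := c_up2 (c_sub Computable.id (Computable.const 1))
theorem d1_comp : Computable d1 := c_up1 d0_comp
theorem d2_comp : Computable d2 := c_up2 d0_comp

theorem d0_lt (c : ℕ) (h : c ≠ 0) : d0 c < c := by
  have := Nat.unpair_right_le (c - 1)
  unfold d0; omega

theorem d1_lt (c : ℕ) (h : c ≠ 0) : d1 c < c := by
  have := Nat.unpair_left_le (d0 c)
  have := d0_lt c h
  unfold d1; omega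

theorem d2_lt (c : ℕ) (h : c ≠ 0) : d2 c < c := by
  have := Nat.unpair_right_le (d0 c)
  have := d0_lt c h
  unfold d2; omega

section

variable {ar : ℕ → ℕ} {M : Type} [(RL ar).Structure M] (ν : ℕ → M)

theorem hol_eq0 (c : ℕ) (L : List ℕ) (hc : c ≠ 0) (h : tg c = 0) :
    Hol ar M ν c L ↔ d1 c < L.length ∧ d2 c < L.length ∧
      ν (L.getD (d1 c) 0) = ν (L.getD (d2 c) 0) := by
  obtain ⟨c, rfl⟩ := Nat.exists_eq_succ_of_ne_zero hc
  exact hol_0 ν c L h

theorem hol_eq1 (c : ℕ) (L : List ℕ) (hc : c ≠ 0) (h : tg c = 1) :
    Hol ar M ν c L ↔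
      (∀ x ∈ Denumerable.ofNat (List ℕ) (d2 c), x < L.length) ∧
      rel ar M (d1 c) ((Denumerable.ofNat (List ℕ) (d2 c)).map (fun x => ν (L.getD x 0))) := by
  obtain ⟨c, rfl⟩ := Nat.exists_eq_succ_of_ne_zero hc
  exact hol_1 ν c L h

theorem hol_eq2 (c : ℕ) (L : List ℕ) (hc : c ≠ 0) (h : tg c = 2) :
    Hol ar M ν c L ↔ (Hol ar M ν (d1 c) L → Hol ar M ν (d2 c) L) := by
  obtain ⟨c, rfl⟩ := Nat.exists_eq_succ_of_ne_zero hc
  exact hol_2 ν c L h

theorem hol_eq3 (hν : Function.Surjective ν) (c : ℕ) (L : List ℕ) (hc : c ≠ 0)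
    (h : 3 ≤ tg c) : Hol ar M ν c L ↔ ∀ m, Hol ar M ν (d0 c) (L ++ [m]) := by
  obtain ⟨c, rfl⟩ := Nat.exists_eq_succ_of_ne_zero hc
  exact hol_3 ν hν c L h

end

open Classical in
/-- truth value of a proposition as a number -/
noncomputable def tv (p : Prop) : ℕ := if p then 1 else 0

theorem tv_true {p : Prop} (h : p) : tv p = 1 := if_pos h
theorem tv_false {p : Prop} (h : ¬ p) : tv p = 0 := if_neg h
theorem tv_congr {p q : Prop} (h : p ↔ q) : tv p = tv q := by rw [propext h]

theorem tv_comp {α : Type} [Primcodable α] {p : α → Prop} (h : ComputablePred p) :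
    Computable (fun a => tv (p a)) := by
  classical
  have := c_ite h (Computable.const 1) (Computable.const 0) (σ := ℕ)
  refine this.of_eq ?_
  intro a
  unfold tv
  by_cases hp : p a <;> simp [hp]

theorem cp_mapget : Computable (fun x : List ℕ × List ℕ => x.2.map (fun k => x.1.getD k 0)) := by
  have h : Primrec₂ (fun (x : List ℕ × List ℕ) (k : ℕ) => x.1.getD k 0) :=
    (Primrec.list_getD (α := ℕ) 0).comp (Primrec.fst.comp Primrec.fst) Primrec.snd
  exact (Primrec.list_map Primrec.snd h).to_comp

theorem cp_alllt : ComputablePred (fun x : List ℕ × ℕ => ∀ k ∈ x.1, k < x.2) := by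
  have h1 : ComputablePred (fun x : List ℕ × ℕ => ∀ a < x.1.length, x.1.getD a 0 < x.2) := by
    refine cp_ball' (p := fun (x : List ℕ × ℕ) a => x.1.getD a 0 < x.2) ?_
      (Computable.list_length.comp Computable.fst)
    exact cp_lt (cp_getD (Computable.fst.comp Computable.fst) Computable.snd)
      (Computable.snd.comp Computable.fst)
  refine cp_of_iff h1 ?_
  intro x
  constructor
  · intro h a ha
    apply h
    rw [List.getD_eq_getElem _ _ ha]
    exact List.getElem_mem ha
  · intro h k hk
    obtain ⟨i, hi, rfl⟩ := List.mem_iff_getElem.1 hk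
    have := h i hi
    rw [List.getD_eq_getElem _ _ hi] at this
    exact this

/-- a numbering is a strong constructivization if the atomic diagram is computable and the
quantifiers can be bounded computably -/
theorem strong_of_bound {ar : ℕ → ℕ} {M : Type} [(RL ar).Structure M]
    (ν : ℕ → M) (hν : Function.Surjective ν)
    (heq : ComputablePred fun p : ℕ × ℕ => ν p.1 = ν p.2)
    (hrel : ComputablePred fun p : ℕ × List ℕ => rel ar M p.1 (p.2.map ν))
    (β : ℕ × List ℕ → ℕ) (hβ : Computable β)
    (hall : ∀ c L, (∀ m < β (c, L), Hol ar M ν c (L ++ [m])) → ∀ m, Hol ar M ν c (L ++ [m])) :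
    StrongConstr (ar := ar) M ν := by
  classical
  -- projections
  have pb : Computable (fun a : St => a.1) := Computable.fst
  have pc : Computable (fun a : St => a.2.1) := Computable.fst.comp Computable.snd
  have pL : Computable (fun a : St => a.2.2.1) :=
    Computable.fst.comp (Computable.snd.comp Computable.snd)
  have pk : Computable (fun a : St => a.2.2.2) :=
    Computable.snd.comp (Computable.snd.comp Computable.snd)
  have pt : Computable (fun a : St => tg a.2.1) := tg_comp.comp pc
  have p0 : Computable (fun a : St => d0 a.2.1) := d0_comp.comp pc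
  have p1 : Computable (fun a : St => d1 a.2.1) := d1_comp.comp pc
  have p2 : Computable (fun a : St => d2 a.2.1) := d2_comp.comp pc
  have k0 : Computable (fun _ : St => (0 : ℕ)) := Computable.const 0
  have k1 : Computable (fun _ : St => (1 : ℕ)) := Computable.const 1
  have k2 : Computable (fun _ : St => (2 : ℕ)) := Computable.const 2
  have k3 : Computable (fun _ : St => (3 : ℕ)) := Computable.const 3
  have plen : Computable (fun a : St => a.2.2.1.length) := Computable.list_length.comp pL
  let immP : St → Prop := fun a =>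
    (a.1 = 0 ∧ (a.2.1 = 0 ∨ tg a.2.1 < 2)) ∨ (a.1 ≠ 0 ∧ a.2.2.2 = 0)
  have himm : ComputablePred immP :=
    cp_or (cp_and (cp_eq pb k0) (cp_or (cp_eq pc k0) (cp_lt pt k2)))
      (cp_and (cp_not (cp_eq pb k0)) (cp_eq pk k0))
  let eqP : St → Prop := fun a => d1 a.2.1 < a.2.2.1.length ∧ d2 a.2.1 < a.2.2.1.length ∧
      ν (a.2.2.1.getD (d1 a.2.1) 0) = ν (a.2.2.1.getD (d2 a.2.1) 0)
  have heqP : ComputablePred eqP := by
    refine cp_and (cp_lt p1 plen) (cp_and (cp_lt p2 plen) ?_)
    exact cp_comp heq (Computable.pair (cp_getD pL p1) (cp_getD pL p2))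
  let relP : St → Prop := fun a =>
    (∀ x ∈ Denumerable.ofNat (List ℕ) (d2 a.2.1), x < a.2.2.1.length) ∧
      rel ar M (d1 a.2.1)
        ((Denumerable.ofNat (List ℕ) (d2 a.2.1)).map (fun x => ν (a.2.2.1.getD x 0)))
  have hrelP : ComputablePred relP := by
    have h1 : Computable (fun a : St => Denumerable.ofNat (List ℕ) (d2 a.2.1)) :=
      (Computable.ofNat (List ℕ)).comp p2
    refine cp_and (cp_comp cp_alllt (Computable.pair h1 plen)) ?_
    have h2 := cp_comp hrel (Computable.pair p1 (cp_mapget.comp (Computable.pair pL h1)))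
    refine cp_of_iff h2 ?_
    intro a
    rw [List.map_map]
    exact Iff.rfl
  let g : St → ℕ := fun a => if a.1 = 0 then (if a.2.1 = 0 then 0 else
    (if tg a.2.1 = 0 then tv (eqP a) else tv (relP a))) else 1
  have hg : Computable g := c_ite (cp_eq pb k0) (c_ite (cp_eq pc k0) k0
    (c_ite (cp_eq pt k0) (tv_comp heqP) (tv_comp hrelP))) k1
  let q : St → St := fun a => if a.1 = 0 then
    (if tg a.2.1 = 2 then (0, d1 a.2.1, a.2.2.1, 0) else
      (1, d0 a.2.1, a.2.2.1, β (d0 a.2.1, a.2.2.1)))
    else (0, a.2.1, a.2.2.1 ++ [a.2.2.2 - 1], 0)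
  have hq : Computable q := by
    refine c_ite (cp_eq pb k0) (c_ite (cp_eq pt k2) ?_ ?_) ?_
    · exact Computable.pair k0 (Computable.pair p1 (Computable.pair pL k0))
    · exact Computable.pair k1 (Computable.pair p0 (Computable.pair pL
        (hβ.comp (Computable.pair p0 pL))))
    · exact Computable.pair k0 (Computable.pair pc (Computable.pair
        (Computable.list_concat.comp pL (c_sub pk k1)) k0))
  let g' : St → ℕ := fun a => if a.1 = 0 ∧ tg a.2.1 = 2 then 1 else 0
  have hg' : Computable g' := c_ite (cp_and (cp_eq pb k0) (cp_eq pt k2)) k1 k0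
  let p2P : St → Prop := fun a => a.1 = 0 ∧ 3 ≤ tg a.2.1
  have hp2 : ComputablePred p2P := cp_and (cp_eq pb k0) (cp_le k3 pt)
  let q' : St → St := fun a => if a.1 = 0 then (0, d2 a.2.1, a.2.2.1, 0) else
    (1, a.2.1, a.2.2.1, a.2.2.2 - 1)
  have hq' : Computable q' := by
    refine c_ite (cp_eq pb k0) ?_ ?_
    · exact Computable.pair k0 (Computable.pair p2 (Computable.pair pL k0))
    · exact Computable.pair k1 (Computable.pair pc (Computable.pair pL (c_sub pk k1)))
  obtain ⟨e, he⟩ := exists_rec himm.decide hg hq hg' hp2.decide hq'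
  have main : ∀ c : ℕ, ∀ (L : List ℕ) (k : ℕ),
      eval e (Encodable.encode ((0, c, L, k) : St)) = Part.some (tv (Hol ar M ν c L)) := by
    intro c
    induction c using Nat.strong_induction_on with
    | _ c ih =>
    intro L k
    rw [he]
    by_cases hc : c = 0
    · subst hc
      have h1 : immP (0, 0, L, k) := Or.inl ⟨rfl, Or.inl rfl⟩
      rw [decide_eq_true h1]
      simp only [cond_true, g, if_true]
      rw [tv_false (hol_zero ν L)]
    have hloop : ∀ (d : ℕ), d < c → ∀ (L : List ℕ) (k : ℕ),
        eval e (Encodable.encode ((1, d, L, k) : St)) =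
          Part.some (tv (∀ m < k, Hol ar M ν d (L ++ [m]))) := by
      intro d hd L k
      induction k with
      | zero =>
        rw [he]
        have h1 : immP (1, d, L, 0) := Or.inr ⟨one_ne_zero, rfl⟩
        rw [decide_eq_true h1]
        simp only [cond_true, g, one_ne_zero, if_false]
        rw [tv_true (by intro m hm; omega)]
      | succ k ihk =>
        rw [he]
        have h1 : ¬ immP (1, d, L, k + 1) := by
          rintro (⟨h, _⟩ | ⟨_, h⟩)
          · exact one_ne_zero h
          · exact Nat.succ_ne_zero _ h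
        rw [decide_eq_false h1]
        have h2 : q (1, d, L, k + 1) = (0, d, L ++ [k], 0) := by
          simp [q]
        rw [h2, ih d hd, cond_false, Part.bind_some]
        have h3 : q' (1, d, L, k + 1) = (1, d, L, k) := by
          simp [q']
        have h4 : g' (1, d, L, k + 1) = 0 := by
          simp [g']
        have h5 : ¬ p2P (1, d, L, k + 1) := fun h => one_ne_zero h.1
        rw [h3, h4, decide_eq_false h5, ihk]
        by_cases hh : Hol ar M ν d (L ++ [k])
        · rw [tv_true hh]
          simp only [one_ne_zero, decide_false, cond_false]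
          congr 1
          apply tv_congr
          constructor
          · intro h m hm
            rcases Nat.lt_succ_iff_lt_or_eq.1 hm with hm | rfl
            · exact h m hm
            · exact hh
          · intro h m hm
            exact h m (by omega)
        · rw [tv_false hh]
          simp only [decide_true, cond_true]
          congr 1
          rw [tv_false]
          intro h
          exact hh (h k (Nat.lt_succ_self k))
    by_cases ht : tg c < 2
    · have h1 : immP (0, c, L, k) := Or.inl ⟨rfl, Or.inr ht⟩
      rw [decide_eq_true h1]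
      simp only [cond_true, g, if_true, if_neg hc]
      by_cases ht0 : tg c = 0
      · rw [if_pos ht0, tv_congr (hol_eq0 ν c L hc ht0)]
      · rw [if_neg ht0, tv_congr (hol_eq1 ν c L hc (by omega))]
    · have h1 : ¬ immP (0, c, L, k) := by
        rintro (⟨_, h | h⟩ | ⟨h, _⟩)
        · exact hc h
        · exact ht h
        · exact h rfl
      rw [decide_eq_false h1, cond_false]
      by_cases ht2 : tg c = 2
      · have h2 : q (0, c, L, k) = (0, d1 c, L, 0) := by
          simp [q, ht2]
        have h3 : q' (0, c, L, k) = (0, d2 c, L, 0) := by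
          simp [q']
        have h4 : g' (0, c, L, k) = 1 := by
          simp [g', ht2]
        have h5 : ¬ p2P (0, c, L, k) := by
          rintro ⟨_, h⟩
          have : 3 ≤ tg c := h
          omega
        rw [h2, h3, h4, decide_eq_false h5, ih _ (d1_lt c hc), ih _ (d2_lt c hc),
          Part.bind_some]
        rw [tv_congr (hol_eq2 ν c L hc ht2)]
        by_cases hh : Hol ar M ν (d1 c) L
        · rw [tv_true hh]
          simp only [one_ne_zero, decide_false, cond_false]
          congr 1
          apply tv_congr
          exact ⟨fun h _ => h, fun h => h hh⟩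
        · rw [tv_false hh]
          simp only [decide_true, cond_true]
          congr 1
          rw [tv_true]
          exact fun h => absurd h hh
      · have h2 : q (0, c, L, k) = (1, d0 c, L, β (d0 c, L)) := by
          simp [q, ht2]
        have h4 : g' (0, c, L, k) = 0 := by
          simp [g', ht2]
        have h5 : p2P (0, c, L, k) := ⟨rfl, by show 3 ≤ tg c; omega⟩
        rw [h2, h4, decide_eq_true h5, hloop _ (d0_lt c hc), Part.bind_some, cond_true]
        rw [tv_congr (hol_eq3 ν hν c L hc (by omega))]
        by_cases hh : ∀ m < β (d0 c, L), Hol ar M ν (d0 c) (L ++ [m])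
        · rw [tv_true hh, tv_true (hall _ _ hh)]
          simp
        · rw [tv_false hh, tv_false (fun h => hh (fun m _ => h m))]
          simp
  refine ⟨hν, ?_⟩
  have hpr : Partrec (fun x : ℕ × List ℕ => eval e (Encodable.encode ((0, x.1, x.2, 0) : St))) :=
    eval_part.comp (Computable.const e) (Computable.encode.comp
      (Computable.pair (Computable.const 0) (Computable.pair Computable.fst
        (Computable.pair Computable.snd (Computable.const 0)))))
  have hc : Computable (fun x : ℕ × List ℕ => tv (Hol ar M ν x.1 x.2)) := by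
    refine Partrec.of_eq hpr ?_
    intro x
    exact main x.1 x.2 0
  refine cp_of_iff (cp_eq hc (Computable.const 1)) ?_
  intro x
  rw [hol_iff]
  unfold tv
  by_cases hh : Hol ar M ν x.1 x.2 <;> simp [hh]

end Pool.Agent.H494_SA
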