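import Pool.Agent.H494_SA.Reconstruct
import Pool.Agent.H494_SA.Strong

/-! Invariance of coded formulas and bounded quantifiers. -/

open FirstOrder Cardinal FirstOrder.Language

namespace Pool.Agent.H494_SA

open Pool.Agent.H494_SCM

theorem snoc_update {M : Type} (n : ℕ) (g : ℕ → M) (x : M) :
    (Fin.snoc (fun k : Fin n => g k) x : Fin (n + 1) → M) =
      fun k : Fin (n + 1) => (Function.update g n x) k := by
  funext k
  refine Fin.lastCases ?_ (fun k => ?_) k
  · rw [Fin.snoc_last]
    simp
  · rw [Fin.snoc_castSucc]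
    have h : ((k.castSucc : Fin (n + 1)) : ℕ) ≠ n := by
      have := k.2
      simp only [Fin.val_castSucc, ne_eq]
      omega
    rw [Function.update_of_ne h]
    rfl

theorem real_all {ar : ℕ → ℕ} {M : Type} [(RL ar).Structure M] (c n : ℕ) (g : ℕ → M) :
    ((fm ar c (n + 1)).all).Realize default (fun k : Fin n => g k) ↔
      ∀ x : M, (fm ar c (n + 1)).Realize default
        (fun k : Fin (n + 1) => (Function.update g n x) k) := by
  rw [BoundedFormula.realize_all]
  apply forall_congr'
  intro x
  rw [snoc_update]

theorem inv_fm (p : Ev) {U : Type} (u : ℕ ↪ U) (σ : Equiv.Perm U) :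
    ∀ c n : ℕ, (∀ t < c + 1, σ (u t) = u t) → ∀ g : ℕ → (fam p).Car arC u,
      ((fm arC c n).Realize default
        (fun k : Fin n => (fam p).mp arC u u σ.toEmbedding (g k)) ↔
      (fm arC c n).Realize default (fun k : Fin n => g k)) := by
  intro c
  induction c using Nat.strong_induction_on with
  | _ c ih =>
  intro n hσ g
  cases c with
  | zero =>
    rw [fm]
    simp
  | succ c =>
    have hle := Nat.unpair_right_le c
    have hle1 := Nat.unpair_left_le (Nat.unpair c).2
    have hle2 := Nat.unpair_right_le (Nat.unpair c).2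
    rw [fm]
    split
    · refine (eqF_real n _ _ (fun k => (fam p).mp arC u u σ.toEmbedding (g k))).trans
        (Iff.trans ?_ (eqF_real n _ _ g).symm)
      rw [((fam p).mp_inj arC u u σ.toEmbedding).eq_iff]
    · refine (relF_real n _ _ (fun k => (fam p).mp arC u u σ.toEmbedding (g k))).trans
        (Iff.trans ?_ (relF_real n _ _ g).symm)
      apply and_congr_right
      intro _
      have h1 := (fam p).rel_mp arC u u σ.toEmbedding (Nat.unpair (Nat.unpair c).2).1
        ((Denumerable.ofNat (List ℕ) (Nat.unpair (Nat.unpair c).2).2).map g) (by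
          intro t ht
          apply hσ
          have h2 : t < (Nat.unpair ((Nat.unpair (Nat.unpair c).2).1 - 1)).2 + 1 := ht
          have h3 := Nat.unpair_right_le ((Nat.unpair (Nat.unpair c).2).1 - 1)
          omega)
      rw [List.map_map] at h1
      exact h1
    · refine (BoundedFormula.realize_imp).trans
        (Iff.trans ?_ (BoundedFormula.realize_imp).symm)
      exact imp_congr (ih _ (by omega) n (fun t ht => hσ t (by omega)) g)
        (ih _ (by omega) n (fun t ht => hσ t (by omega)) g)
    · refine (real_all _ n (fun k => (fam p).mp arC u u σ.toEmbedding (g k))).trans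
        (Iff.trans ?_ (real_all _ n g).symm)
      have key : ∀ x : (fam p).Car arC u,
          (fun k : Fin (n + 1) => (Function.update
            (fun k => (fam p).mp arC u u σ.toEmbedding (g k)) n
            ((fam p).mp arC u u σ.toEmbedding x)) k) =
          (fun k : Fin (n + 1) => (fam p).mp arC u u σ.toEmbedding
            ((Function.update g n x) k)) := by
        intro x
        funext k
        by_cases hk : (k : ℕ) = n
        · rw [hk, Function.update_self, Function.update_self]
        · rw [Function.update_of_ne hk, Function.update_of_ne hk]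
      have hsurj : ∀ b : (fam p).Car arC u, ∃ a : (fam p).Car arC u,
          (fam p).mp arC u u σ.toEmbedding a = b := by
        intro b
        refine ⟨(fam p).map σ.symm.toEmbedding b, ?_⟩
        have h1 := (fam p).map_comp σ.symm.toEmbedding σ.toEmbedding b
        have h2 : (σ.symm.toEmbedding).trans (σ.toEmbedding) = Function.Embedding.refl U := by
          ext x; simp
        rw [h2, (fam p).map_id] at h1
        exact h1
      constructor
      · intro H a
        have := H ((fam p).mp arC u u σ.toEmbedding a)
        rw [key a] at this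
        exact (ih _ (by omega) (n + 1) (fun t ht => hσ t (by omega)) _).1 this
      · intro H b
        obtain ⟨a, rfl⟩ := hsurj b
        rw [key a]
        exact (ih _ (by omega) (n + 1) (fun t ht => hσ t (by omega)) _).2 (H a)

/-- the carrier over the natural numbers -/
abbrev X : Type := ℕ ⊕ ℕ × ℕ × Bool

/-- changing the sheets -/
def fl (s : ℕ → ℕ → Bool) : X → X
  | Sum.inl x => Sum.inl x
  | Sum.inr (a, b, e) => Sum.inr (a, b, xor e (s a b))

theorem fl_fl (s : ℕ → ℕ → Bool) (x : X) : fl s (fl s x) = x := by
  rcases x with x | ⟨a, b, e⟩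
  · rfl
  · show (Sum.inr (a, b, xor (xor e (s a b)) (s a b)) : X) = _
    simp

theorem fl_inj (s : ℕ → ℕ → Bool) : Function.Injective (fl s) := by
  intro x y h
  rw [← fl_fl s x, ← fl_fl s y, h]

/-- numbers of the elements -/
def en : X → ℕ
  | Sum.inl x => 2 * x
  | Sum.inr (a, b, e) => 2 * Nat.pair a (2 * b + e.toNat) + 1

/-- first coordinate -/
def cA (n : ℕ) : ℕ := if n % 2 = 0 then n / 2 else (Nat.unpair (n / 2)).1
/-- second coordinate -/
def cB (n : ℕ) : ℕ := (Nat.unpair (n / 2)).2 / 2
/-- sheet -/
def cE (n : ℕ) : Bool := decide ((Nat.unpair (n / 2)).2 % 2 = 1)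

/-- the element with a given number -/
def de (n : ℕ) : X := if n % 2 = 0 then Sum.inl (cA n) else Sum.inr (cA n, cB n, cE n)

theorem de_en (x : X) : de (en x) = x := by
  rcases x with x | ⟨a, b, e⟩
  · simp [de, en, cA]
  · have h1 : (2 * Nat.pair a (2 * b + e.toNat) + 1) % 2 = 1 := by omega
    have h2 : (2 * Nat.pair a (2 * b + e.toNat) + 1) / 2 = Nat.pair a (2 * b + e.toNat) := by
      omega
    have h3 : (2 * b + e.toNat) / 2 = b := by cases e <;> simp <;> omega
    have h4 : decide ((2 * b + e.toNat) % 2 = 1) = e := by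
      cases e <;> simp <;> omega
    have h5 : ¬ (2 * Nat.pair a (2 * b + e.toNat) + 1) % 2 = 0 := by omega
    show de (2 * Nat.pair a (2 * b + e.toNat) + 1) = _
    rw [de, if_neg h5, cA, if_neg h5, cB, cE, h2, Nat.unpair_pair]
    simp only
    rw [h3, h4]

theorem en_de (n : ℕ) : en (de n) = n := by
  by_cases h : n % 2 = 0
  · simp only [de, h, if_true, en, cA]
    omega
  · simp only [de, h, if_false, en, cA, cB, cE]
    have h1 : 2 * ((Nat.unpair (n / 2)).2 / 2) +
        (decide ((Nat.unpair (n / 2)).2 % 2 = 1)).toNat = (Nat.unpair (n / 2)).2 := by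
      by_cases h2 : (Nat.unpair (n / 2)).2 % 2 = 1
      · rw [decide_eq_true h2]; simp; omega
      · rw [decide_eq_false h2]; simp; omega
    rw [h1, Nat.pair_unpair]
    omega

/-- a numbering of the carrier -/
def nu (s : ℕ → ℕ → Bool) (n : ℕ) : X := fl s (de n)

theorem nu_en (s : ℕ → ℕ → Bool) (x : X) : nu s (en (fl s x)) = x := by
  unfold nu
  rw [de_en, fl_fl]

theorem nu_surj (s : ℕ → ℕ → Bool) : Function.Surjective (nu s) := fun x => ⟨_, nu_en s x⟩

theorem nu_inj (s : ℕ → ℕ → Bool) : Function.Injective (nu s) := by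
  intro m n h
  have h1 := fl_inj s h
  rw [← en_de m, ← en_de n, h1]

theorem en_lt (a b : ℕ) (e : Bool) (B : ℕ) (ha : a < B) (hb : b < B) :
    en (Sum.inr (a, b, e)) < 2 * Nat.pair B (2 * B) + 2 := by
  show 2 * Nat.pair a (2 * b + e.toNat) + 1 < _
  have h1 : 2 * b + e.toNat < 2 * B := by
    have := Bool.toNat_lt e
    omega
  have h2 := Nat.pair_lt_pair_left (2 * b + e.toNat) ha
  have h3 := Nat.pair_lt_pair_right B h1
  omega

theorem en_lt' (a B : ℕ) (ha : a < B) : en (Sum.inl a) < 2 * Nat.pair B (2 * B) + 2 := by
  show 2 * a < _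
  have := Nat.left_le_pair B (2 * B)
  omega

theorem cA_le (n : ℕ) : cA n ≤ n := by
  have := Nat.unpair_left_le (n / 2)
  unfold cA
  split_ifs <;> omega

theorem cB_le (n : ℕ) : cB n ≤ n := by
  have := Nat.unpair_right_le (n / 2)
  unfold cB
  omega

/-- the marks of the `j`-th model -/
def mk (j : ℕ) : ℕ ↪ ℕ := ⟨fun t => t + j, fun a b h => by simpa using h⟩

@[simp] theorem mk_apply (j t : ℕ) : mk j t = t + j := rfl

/-- size of the region that has to be fixed -/
def bB (j : ℕ) (x : ℕ × List ℕ) : ℕ := x.1 + 1 + j + Encodable.encode x.2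

/-- bound for the quantifiers -/
def bet (j : ℕ) (x : ℕ × List ℕ) : ℕ :=
  2 * Nat.pair (bB j x + 2) (2 * (bB j x + 2)) + 2

theorem bet_comp (j : ℕ) : Computable (bet j) := by
  have h1 : Computable (bB j) := c_add (c_add (c_add Computable.fst (Computable.const 1))
    (Computable.const j)) (Computable.encode.comp Computable.snd)
  have h2 := c_add h1 (Computable.const 2)
  exact c_add (c_mul (Computable.const 2) (c_pair h2 (c_mul (Computable.const 2) h2)))
    (Computable.const 2)

theorem mem_le_encode (L : List ℕ) : ∀ k ∈ L, k < Encodable.encode L := by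
  induction L with
  | nil => simp
  | cons a L ih =>
    intro k hk
    rw [Encodable.encode_list_cons]
    rcases List.mem_cons.1 hk with rfl | hk
    · have := Nat.left_le_pair (Encodable.encode k) (Encodable.encode L)
      simp only [Encodable.encode_nat] at this ⊢
      omega
    · have h1 := ih k hk
      have := Nat.right_le_pair (Encodable.encode a) (Encodable.encode L)
      simp only [Encodable.encode_nat] at this ⊢
      omega

theorem exists_move (B a b : ℕ) : ∃ σ : Equiv.Perm ℕ, (∀ y < B, σ y = y) ∧ σ a < B + 2 ∧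
    σ b < B + 2 := by
  by_cases ha : a < B + 2
  · by_cases hb : b < B + 2
    · exact ⟨1, fun _ _ => rfl, ha, hb⟩
    · by_cases haB : a = B
      · refine ⟨Equiv.swap b (B + 1), fun y hy => ?_, ?_, ?_⟩
        · exact Equiv.swap_apply_of_ne_of_ne (by omega) (by omega)
        · rw [Equiv.swap_apply_of_ne_of_ne (by omega) (by omega)]
          exact ha
        · rw [Equiv.swap_apply_left]; omega
      · refine ⟨Equiv.swap b B, fun y hy => ?_, ?_, ?_⟩
        · exact Equiv.swap_apply_of_ne_of_ne (by omega) (by omega)
        · rw [Equiv.swap_apply_of_ne_of_ne (by omega) (by omega)]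
          exact ha
        · rw [Equiv.swap_apply_left]; omega
  · by_cases hb : b < B + 2
    · by_cases hbB : b = B
      · refine ⟨Equiv.swap a (B + 1), fun y hy => ?_, ?_, ?_⟩
        · exact Equiv.swap_apply_of_ne_of_ne (by omega) (by omega)
        · rw [Equiv.swap_apply_left]; omega
        · rw [Equiv.swap_apply_of_ne_of_ne (by omega) (by omega)]
          exact hb
      · refine ⟨Equiv.swap a B, fun y hy => ?_, ?_, ?_⟩
        · exact Equiv.swap_apply_of_ne_of_ne (by omega) (by omega)
        · rw [Equiv.swap_apply_left]; omega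
        · rw [Equiv.swap_apply_of_ne_of_ne (by omega) (by omega)]
          exact hb
    · by_cases hab : a = b
      · subst hab
        refine ⟨Equiv.swap a B, fun y hy => ?_, ?_, ?_⟩
        · exact Equiv.swap_apply_of_ne_of_ne (by omega) (by omega)
        · rw [Equiv.swap_apply_left]; omega
        · rw [Equiv.swap_apply_left]; omega
      · refine ⟨Equiv.swap a B * Equiv.swap b (B + 1), fun y hy => ?_, ?_, ?_⟩
        · have e1 : Equiv.swap b (B + 1) y = y :=
            Equiv.swap_apply_of_ne_of_ne (by omega) (by omega)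
          rw [Equiv.Perm.mul_apply, e1]
          exact Equiv.swap_apply_of_ne_of_ne (by omega) (by omega)
        · have e1 : Equiv.swap b (B + 1) a = a :=
            Equiv.swap_apply_of_ne_of_ne (by omega) (by omega)
          rw [Equiv.Perm.mul_apply, e1, Equiv.swap_apply_left]
          omega
        · have e1 : Equiv.swap b (B + 1) b = B + 1 := Equiv.swap_apply_left _ _
          have e2 : Equiv.swap a B (B + 1) = B + 1 :=
            Equiv.swap_apply_of_ne_of_ne (by omega) (by omega)
          rw [Equiv.Perm.mul_apply, e1, e2]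
          omega

/-- the `j`-th model -/
abbrev Mj (p : Ev) (j : ℕ) : Type := (fam p).Car arC (mk j)

theorem hall (p : Ev) (j : ℕ) (s : ℕ → ℕ → Bool) (c : ℕ) (L : List ℕ)
    (H : ∀ m < bet j (c, L), Hol arC (Mj p j) (nu s) c (L ++ [m])) (m : ℕ) :
    Hol arC (Mj p j) (nu s) c (L ++ [m]) := by
  set B := bB j (c, L) with hB
  have hBv : B = c + 1 + j + Encodable.encode L := rfl
  obtain ⟨σ, h1, h2, h3⟩ := exists_move B (cA m) (cB m)
  -- the number of the moved element
  obtain ⟨m', hm'⟩ := nu_surj s (cmap σ.toEmbedding (nu s m))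
  have hlt : m' < bet j (c, L) := by
    have e1 : m' = en (fl s (cmap σ.toEmbedding (nu s m))) := by
      apply nu_inj s
      rw [nu_en, hm']
    rw [e1]
    unfold nu de
    split_ifs with hk
    · exact en_lt' _ _ h2
    · exact en_lt _ _ _ _ h2 h3
  have hL : ∀ k ∈ L, cmap σ.toEmbedding (nu s k) = nu s k := by
    intro k hk
    have hk' := mem_le_encode L k hk
    have a1 : σ (cA k) = cA k := h1 _ (by have := cA_le k; omega)
    have a2 : σ (cB k) = cB k := h1 _ (by have := cB_le k; omega)
    unfold nu de
    split_ifs with hk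
    · show (Sum.inl (σ (cA k)) : X) = Sum.inl (cA k)
      rw [a1]
    · show (Sum.inr (σ (cA k), σ (cB k), xor (cE k) (s (cA k) (cB k))) : X) = Sum.inr (cA k, cB k, _)
      rw [a1, a2]
  have hH := H m' hlt
  have hinv := inv_fm p (mk j) σ c (L ++ [m]).length (by
    intro t ht
    apply h1
    show t + j < B
    omega) (fun k => nu s ((L ++ [m]).getD k 0))
  unfold Hol
  refine hinv.1 ?_
  unfold Hol at hH
  have hlen : (L ++ [m']).length = (L ++ [m]).length := by simp
  refine (real_congr (ar := arC) (M := Mj p j) c hlen (fun k => nu s ((L ++ [m']).getD k 0))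
    (fun k => (fam p).mp arC (mk j) (mk j) σ.toEmbedding (nu s ((L ++ [m]).getD k 0))) ?_).1 hH
  intro k hk
  have hk2 : k ≤ L.length := by
    rw [List.length_append, List.length_singleton] at hk
    omega
  show nu s ((L ++ [m']).getD k 0) = cmap σ.toEmbedding (nu s ((L ++ [m]).getD k 0))
  rcases Nat.lt_or_eq_of_le hk2 with hk3 | rfl
  · rw [List.getD_append _ _ _ _ hk3, List.getD_append _ _ _ _ hk3]
    rw [List.getD_eq_getElem _ _ hk3]
    exact (hL _ (List.getElem_mem hk3)).symm
  · rw [List.getD_append_right _ _ _ _ le_rfl, List.getD_append_right _ _ _ _ le_rfl]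
    simpa using hm'

end Pool.Agent.H494_SA
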