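import Pool.Agent.H494_SA.Diag

/-! Model theory of the family. -/

open FirstOrder Cardinal FirstOrder.Language

namespace Pool.Agent.H494_SA

open Pool.Agent.H494_SCM

theorem relF_eq (ar : ℕ → ℕ) (n i l : ℕ) (hi : ar i = l) (x : Fin l → Fin n) :
    relF ar n i (List.ofFn (fun k => (x k : ℕ))) =
      BoundedFormula.rel (⟨i, hi⟩ : (RL ar).Relations l) (fun k => Term.var (Sum.inr (x k))) := by
  generalize hL : List.ofFn (fun k => (x k : ℕ)) = L
  have hlen : L.length = l := by rw [← hL]; simp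
  subst hlen
  have hget : ∀ k, L.get k = x k := by
    intro k
    have h1 : (List.ofFn (fun k => (x k : ℕ)))[(k : ℕ)]? = L[(k : ℕ)]? := by rw [hL]
    rw [List.getElem?_eq_getElem k.2, List.getElem?_eq_getElem (by simp), List.getElem_ofFn] at h1
    exact (Option.some.inj h1).symm
  have hlt : ∀ y ∈ L, y < n := by
    intro y hy
    obtain ⟨k, rfl⟩ := List.get_of_mem hy
    rw [hget]
    exact (x k).2
  unfold relF
  rw [dif_pos ⟨hi, hlt⟩]
  unfold Relations.boundedFormula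
  congr 1
  funext k
  congr 2
  exact Fin.ext (hget k)

/-- every formula with free variables among the first `n` ones has a Goedel number -/
theorem fm_surj (ar : ℕ → ℕ) : ∀ {n : ℕ} (φ : (RL ar).BoundedFormula Empty n),
    ∃ c, fm ar c n = φ := by
  have hterm : ∀ {m : ℕ} (t : (RL ar).Term (Empty ⊕ Fin m)), ∃ x, t = Term.var (Sum.inr x) := by
    intro m t
    cases t with
    | var x =>
      rcases x with x | x
      · exact x.elim
      · exact ⟨x, rfl⟩
    | func f ts => exact f.elim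
  intro n φ
  induction φ with
  | falsum => exact ⟨0, by rw [fm]; rfl⟩
  | equal t₁ t₂ =>
    obtain ⟨i, rfl⟩ := hterm t₁
    obtain ⟨j, rfl⟩ := hterm t₂
    refine ⟨Nat.pair 0 (Nat.pair i j) + 1, ?_⟩
    rw [fm]
    simp only [Nat.unpair_pair]
    unfold eqF
    rw [dif_pos ⟨i.2, j.2⟩]
    rfl
  | rel R ts =>
    rename_i m l
    obtain ⟨i, hi⟩ := R
    have hts : ∀ k, ∃ x, ts k = Term.var (Sum.inr x) := fun k => hterm (ts k)
    choose x hx using hts
    refine ⟨Nat.pair 1 (Nat.pair i (Encodable.encode (List.ofFn (fun k => (x k : ℕ))))) + 1, ?_⟩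
    rw [fm]
    simp only [Nat.unpair_pair, Denumerable.ofNat_encode]
    rw [relF_eq ar _ i l hi x]
    congr 1
    funext k
    exact (hx k).symm
  | imp φ ψ ih1 ih2 =>
    obtain ⟨a, rfl⟩ := ih1
    obtain ⟨b, rfl⟩ := ih2
    refine ⟨Nat.pair 2 (Nat.pair a b) + 1, ?_⟩
    conv_lhs => rw [fm]
    simp only [Nat.unpair_pair]
  | all φ ih =>
    obtain ⟨a, rfl⟩ := ih
    refine ⟨Nat.pair 3 a + 1, ?_⟩
    conv_lhs => rw [fm]
    simp only [Nat.unpair_pair]

theorem card_fam (p : Ev) (U : Type) [Infinite U] : #((fam p).F U) = #U := by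
  show #(U ⊕ U × U × Bool) = #U
  have h0 := Cardinal.aleph0_le_mk U
  simp only [Cardinal.mk_sum, Cardinal.lift_id, Cardinal.mk_prod, Cardinal.mk_bool]
  have h2 : (2 : Cardinal) ≤ #U := le_trans (by exact_mod_cast (Cardinal.nat_lt_aleph0 2).le) h0
  rw [Cardinal.mul_eq_left h0 h2 two_ne_zero, Cardinal.mul_eq_self h0, Cardinal.add_eq_self h0]

theorem equiv_car' (p : Ev) {U : Type} (u : ℕ ↪ U) :
    ((fam p).Car arC (Function.Embedding.refl ℕ)) ≅[RL arC] (fam p).Car arC u := by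
  obtain ⟨g, _⟩ := (fam p).tv arC (Function.Embedding.refl ℕ) u u (fun t => rfl)
  exact g.elementarilyEquivalent

/-- the theory -/
noncomputable abbrev Th (p : Ev) : (RL arC).Theory :=
  (RL arC).completeTheory ((fam p).Car arC (Function.Embedding.refl ℕ))

theorem car_nonempty (p : Ev) {U : Type} (u : ℕ ↪ U) : Nonempty ((fam p).Car arC u) :=
  ⟨(Sum.inl (u 0) : U ⊕ U × U × Bool)⟩

theorem car_model (p : Ev) {U : Type} (u : ℕ ↪ U) : ((fam p).Car arC u) ⊨ Th p :=
  ⟨fun φ hφ => ((elementarilyEquivalent_iff.1 (equiv_car' p u)) φ).1 hφ⟩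

theorem th_complete (p : Ev) : (Th p).IsComplete :=
  haveI := car_nonempty p (Function.Embedding.refl ℕ)
  FirstOrder.Language.completeTheory.isComplete (RL arC) _

/-- a member of the family as a model of the theory -/
noncomputable def carM (p : Ev) {U : Type} (u : ℕ ↪ U) :
    FirstOrder.Language.Theory.ModelType.{0, 0, 0} (Th p) :=
  haveI := car_model p u
  haveI := car_nonempty p u
  FirstOrder.Language.Theory.ModelType.of (Th p) ((fam p).Car arC u)

theorem models_class (p : Ev) (N : FirstOrder.Language.Theory.ModelType.{0, 0, 0} (Th p)) :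
    ∃ (U : Type) (u : ℕ ↪ U), Nonempty (N ≃[RL arC] (fam p).Car arC u) := by
  apply classif p N
  rw [elementarilyEquivalent_iff]
  intro φ
  haveI := car_model p (Function.Embedding.refl ℕ)
  haveI := car_nonempty p (Function.Embedding.refl ℕ)
  rw [(th_complete p).realize_sentence_iff φ N]
  exact (th_complete p).realize_sentence_iff φ _

theorem card_car (p : Ev) {U : Type} (u : ℕ ↪ U) : #((fam p).Car arC u) = #U := by
  have : Infinite U := Infinite.of_injective u u.injective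
  exact card_fam p U

theorem categorical (p : Ev) (κ : Cardinal.{0}) (hκ : ℵ₀ < κ) :
    Cardinal.Categorical κ (Th p) := by
  intro N N' hN hN'
  obtain ⟨U, u, ⟨e⟩⟩ := models_class p N
  obtain ⟨U', u', ⟨e'⟩⟩ := models_class p N'
  have hU : #U = κ := by
    rw [← card_car p u, ← hN]; exact (Cardinal.mk_congr e.toEquiv).symm
  have hU' : #U' = κ := by
    rw [← card_car p u', ← hN']; exact (Cardinal.mk_congr e'.toEquiv).symm
  have key : ∀ {W : Type} (w : ℕ ↪ W), #W = κ → #((Set.range w)ᶜ : Set W) = κ := by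
    intro W w hW
    have : Infinite W := Infinite.of_injective w w.injective
    rw [Cardinal.mk_compl_of_infinite, hW]
    rw [hW]
    refine lt_of_le_of_lt ?_ hκ
    rw [Cardinal.mk_le_aleph0_iff]
    exact (Set.countable_range w).to_subtype
  obtain ⟨g, hg⟩ := exists_marks_equiv u u' (by rw [key u hU, key u' hU'])
  obtain ⟨k, _⟩ := (fam p).exists_iso arC u u' g hg
  exact ⟨(e'.symm.comp k).comp e⟩

theorem prime_zero (p : Ev) (N : FirstOrder.Language.Theory.ModelType.{0, 0, 0} (Th p)) :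
    Nonempty ((carM p (mk 0)) ↪ₑ[RL arC] N) := by
  obtain ⟨U, u, ⟨e⟩⟩ := models_class p N
  obtain ⟨g, _⟩ := (fam p).tv arC (mk 0) u u (fun t => by rw [mk_apply, add_zero])
  exact ⟨e.symm.toElementaryEmbedding.comp g⟩

theorem decidable_of_strong (p : Ev) {ν : ℕ → Mj p 0}
    (h : StrongConstr (ar := arC) (Mj p 0) ν) : DecidableTheory (ar := arC) (Th p) := by
  have h1 : Computable (fun c : ℕ => ((c, []) : ℕ × List ℕ)) :=
    Computable.pair Computable.id (Computable.const [])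
  refine cp_of_iff (cp_comp h.2 h1) ?_
  intro c
  show (Th p) ⊨ᵇ (fm arC c 0) ↔ (fm arC c 0).Realize default _
  haveI := car_model p (mk 0)
  haveI := car_nonempty p (mk 0)
  have h2 : (Mj p 0) ⊨ (fm arC c 0 : (RL arC).Sentence) ↔ (Th p) ⊨ᵇ (fm arC c 0) :=
    (th_complete p).realize_sentence_iff (fm arC c 0) (Mj p 0)
  rw [← h2]
  apply Iff.of_eq
  unfold Sentence.Realize Formula.Realize
  congr 1
  funext x
  exact x.elim0

theorem not_sat_one (p : Ev) : ¬ IsSat (ar := arC) (carM p (mk 1)) := by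
  intro hs
  obtain ⟨f, hf⟩ := (fam p).tv arC (mk 1) (mk 2)
    ⟨fun x => if x = 0 then 0 else x + 1, by
      intro a b h
      simp only at h
      split_ifs at h <;> omega⟩ (fun t => by
        show (if t + 1 = 0 then 0 else t + 1 + 1) = t + 2
        rw [if_neg (by omega)])
  obtain ⟨c, hc⟩ := hs (carM p (mk 2)) f 1 (fun _ => (Sum.inl 0 : ℕ ⊕ ℕ × ℕ × Bool))
    (Sum.inl 1 : ℕ ⊕ ℕ × ℕ × Bool)
  have hfa : f (Sum.inl 0 : ℕ ⊕ ℕ × ℕ × Bool) = (Sum.inl 0 : ℕ ⊕ ℕ × ℕ × Bool) := hf _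
  obtain ⟨φ1, h1⟩ := UDef.rel (ar := arC) (α := Fin 2) oI [1]
  obtain ⟨φ2, h2⟩ := UDef.eq (ar := arC) (α := Fin 2) 0 1
  have hcO : rel arC (Mj p 1) oI [c] := by
    have g1 := (hc φ1).1 ((h1 _ _).2 ((rel_O p (mk 2) _).2 ⟨1, rfl⟩))
    exact (h1 _ _).1 g1
  obtain ⟨y, hy⟩ := (rel_O p (mk 1) _).1 hcO
  have hy' : c = (Sum.inl y : ℕ ⊕ ℕ × ℕ × Bool) := hy
  rcases y with _ | t
  · have g2 := (hc φ2).2 ((h2 _ _).2 (show _ = c from hy'.symm))
    have g3 : f (Sum.inl 0 : ℕ ⊕ ℕ × ℕ × Bool) = (Sum.inl 1 : ℕ ⊕ ℕ × ℕ × Bool) := (h2 _ _).1 g2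
    rw [hfa] at g3
    exact absurd (Sum.inl_injective g3) (by omega)
  · obtain ⟨φ3, h3⟩ := UDef.rel (ar := arC) (α := Fin 2) (kI t) [1]
    have g4 := (hc φ3).2 ((h3 _ _).2 ((rel_K p (mk 1) t _).2 hy'))
    have g5 := (rel_K p (mk 2) t _).1 ((h3 _ _).1 g4)
    have g6 : (Sum.inl 1 : ℕ ⊕ ℕ × ℕ × Bool) = Sum.inl (t + 2) := g5
    exact absurd (Sum.inl_injective g6) (by omega)

end Pool.Agent.H494_SA
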