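import Pool.Agent.H494_SA.Classif

/-! Reconstruction of the parameter set. -/

open FirstOrder Cardinal FirstOrder.Language

namespace Pool.Agent.H494_SA

open Pool.Agent.H494_SCM

section

variable {p : Ev} {N : Type} [(RL arC).Structure N] (hN : CAx p N)

include hN

theorem c1 {v a b : N} (h : rel arC N 0 [v, a, b]) : ¬ rel arC N oI [v] ∧ rel arC N oI [a] ∧
    rel arC N oI [b] := by
  have := hN.s1 ![v, a, b, a, b] h
  exact ⟨this.1, this.2.1, this.2.2.1⟩

theorem c2 {v a b a' b' : N} (h : rel arC N 0 [v, a, b]) (h' : rel arC N 0 [v, a', b']) :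
    a = a' ∧ b = b' := (hN.s1 ![v, a, b, a', b'] h).2.2.2 h'

theorem c3 {a b : N} (ha : rel arC N oI [a]) (hb : rel arC N oI [b]) {v v' : N} (hv : v ≠ v')
    (h : rel arC N 0 [v, a, b]) (h' : rel arC N 0 [v', a, b]) (w : N)
    (hw : rel arC N 0 [w, a, b]) : w = v ∨ w = v' := by
  obtain ⟨z, hz, _, _, hall⟩ := hN.s3 ![a, b] ha hb
  have h1 := hall (fun _ => v) h
  have h2 := hall (fun _ => v') h'
  have h3 := hall (fun _ => w) hw
  rcases h1 with h1 | h1 <;> rcases h2 with h2 | h2 <;> rcases h3 with h3 | h3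
  · exact absurd (h1.trans h2.symm) hv
  · exact absurd (h1.trans h2.symm) hv
  · exact Or.inl (h3.trans h1.symm)
  · exact Or.inr (h3.trans h2.symm)
  · exact Or.inr (h3.trans h2.symm)
  · exact Or.inl (h3.trans h1.symm)
  · exact absurd (h1.trans h2.symm) hv
  · exact absurd (h1.trans h2.symm) hv

theorem exists_marks : ∃ u : ℕ ↪ {x : N // rel arC N oI [x]}, ∀ t (y : N),
    rel arC N (kI t) [y] ↔ y = u t := by
  choose y hy using hN.s4
  refine ⟨⟨fun t => ⟨y t 0, (hy t).1⟩, ?_⟩, ?_⟩
  · intro t t' h
    have h1 : y t 0 = y t' 0 := congrArg Subtype.val h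
    exact (hN.s5 t t' ![y t 0, y t' 0] (hy t).2 (hy t').2).1 h1
  · intro t z
    constructor
    · intro hz
      exact (hN.s5 t t ![z, y t 0] hz (hy t).2).2 rfl
    · intro hz
      have hz' : z = y t 0 := hz
      rw [hz']
      exact (hy t).2

theorem exists_fiber (u : ℕ ↪ {x : N // rel arC N oI [x]})
    (hu : ∀ t (y : N), rel arC N (kI t) [y] ↔ y = u t) (a b : {x : N // rel arC N oI [x]}) :
    ∃ z : Bool → N, z false ≠ z true ∧ (∀ e, rel arC N 0 [z e, a, b]) ∧
      (∀ t, a = u t → rel arC N (qI t) [z false] ∧ ¬ rel arC N (qI t) [z true]) ∧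
      (∀ s i, p.ev s = some i → b = u i →
        rel arC N (pI s) [z false] ∧ ¬ rel arC N (pI s) [z true]) := by
  by_cases hA : ∃ t, a = u t
  · obtain ⟨t, rfl⟩ := hA
    obtain ⟨z, h0, h1, h2, h3⟩ := hN.s7 t ![(u t : N), (b : N)] ((hu t _).2 rfl) b.2
    have hne : z 0 ≠ z 1 := fun h => h3 (h ▸ h2)
    refine ⟨fun e => if e then z 1 else z 0, by simpa using hne, ?_, ?_, ?_⟩
    · intro e; cases e
      · exact h0
      · exact h1
    · intro t' ht'
      obtain rfl := u.injective ht'
      exact ⟨h2, h3⟩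
    · rintro s i hi rfl
      have q0 := hN.s11 t s i hi ![z 0, (u t : N), (u i : N)] h0 ((hu t _).2 rfl)
        ((hu i _).2 rfl)
      have q1 := hN.s11 t s i hi ![z 1, (u t : N), (u i : N)] h1 ((hu t _).2 rfl)
        ((hu i _).2 rfl)
      exact ⟨q0.1 h2, fun h => h3 (q1.2 h)⟩
  · by_cases hB : ∃ s i, p.ev s = some i ∧ b = u i
    · obtain ⟨s, i, hi, rfl⟩ := hB
      obtain ⟨z, h0, h1, h2, h3⟩ := hN.s9 s i hi ![(a : N), (u i : N)] a.2 ((hu i _).2 rfl)
      have hne : z 0 ≠ z 1 := fun h => h3 (h ▸ h2)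
      refine ⟨fun e => if e then z 1 else z 0, by simpa using hne, ?_, ?_, ?_⟩
      · intro e; cases e
        · exact h0
        · exact h1
      · intro t' ht'
        exact absurd ⟨t', ht'⟩ hA
      · intro s' i' hi' he
        obtain rfl := u.injective he
        exact ⟨(hN.s12 s s' i hi hi' (fun _ => z 0)).1 h2,
          fun h => h3 ((hN.s12 s s' i hi hi' (fun _ => z 1)).2 h)⟩
    · obtain ⟨z, hne, h0, h1, _⟩ := hN.s3 ![(a : N), (b : N)] a.2 b.2
      refine ⟨fun e => if e then z 1 else z 0, by simpa using hne, ?_, ?_, ?_⟩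
      · intro e; cases e
        · exact h0
        · exact h1
      · intro t' ht'
        exact absurd ⟨t', ht'⟩ hA
      · intro s' i' hi' he
        exact absurd ⟨s', i', hi', he⟩ hB

theorem reconstruct : ∃ (U : Type) (u : ℕ ↪ U), Nonempty (N ≃[RL arC] (fam p).Car arC u) := by
  classical
  obtain ⟨u, hu⟩ := exists_marks hN
  choose z hz using exists_fiber hN u hu
  let U := {x : N // rel arC N oI [x]}
  let f : U ⊕ U × U × Bool → N := fun x => match x with
    | Sum.inl x => x
    | Sum.inr (a, b, e) => z a b e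
  have hfO : ∀ x, rel arC N oI [f x] ↔ ∃ y, x = Sum.inl y := by
    rintro (x | ⟨a, b, e⟩)
    · exact ⟨fun _ => ⟨x, rfl⟩, fun _ => x.2⟩
    · constructor
      · intro h
        exact absurd h (c1 hN ((hz a b).2.1 e)).1
      · rintro ⟨y, hy⟩
        exact absurd hy Sum.inr_ne_inl
  have hzne : ∀ a b (e e' : Bool), z a b e = z a b e' → e = e' := by
    intro a b e e' h
    have := (hz a b).1
    cases e <;> cases e' <;> first | rfl | exact absurd h this | exact absurd h.symm this
  have hinj : Function.Injective f := by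
    rintro (x | ⟨a, b, e⟩) (x' | ⟨a', b', e'⟩) h
    · have h' : (x : N) = x' := h
      rw [Subtype.ext h']
    · have h' : (x : N) = z a' b' e' := h
      exact absurd (h' ▸ x.2) (c1 hN ((hz a' b').2.1 e')).1
    · have h' : z a b e = (x' : N) := h
      exact absurd (h'.symm ▸ x'.2) (c1 hN ((hz a b).2.1 e)).1
    · have h' : z a b e = z a' b' e' := h
      have h1 := (hz a b).2.1 e
      have h2 := (hz a' b').2.1 e'
      rw [← h'] at h2
      obtain ⟨g1, g2⟩ := c2 hN h1 h2
      obtain rfl := Subtype.ext g1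
      obtain rfl := Subtype.ext g2
      rw [hzne _ _ _ _ h']
  have hsurj : Function.Surjective f := by
    intro x
    by_cases hx : rel arC N oI [x]
    · exact ⟨Sum.inl ⟨x, hx⟩, rfl⟩
    · obtain ⟨y, hy⟩ := hN.s2 (fun _ => x) hx
      have h1 := c1 hN hy
      have h2 := c3 hN h1.2.1 h1.2.2 (hz ⟨y 0, h1.2.1⟩ ⟨y 1, h1.2.2⟩).1
        ((hz ⟨y 0, h1.2.1⟩ ⟨y 1, h1.2.2⟩).2.1 false)
        ((hz ⟨y 0, h1.2.1⟩ ⟨y 1, h1.2.2⟩).2.1 true) x hy
      rcases h2 with h2 | h2
      · exact ⟨Sum.inr (_, _, false), h2.symm⟩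
      · exact ⟨Sum.inr (_, _, true), h2.symm⟩
  have hC : ∀ v r a : U ⊕ U × U × Bool, rel arC N 0 [f v, f r, f a] ↔
      ∃ (r' a' : U) (e : Bool), v = Sum.inr (r', a', e) ∧ r = Sum.inl r' ∧ a = Sum.inl a' := by
    intro v r a
    constructor
    · intro h
      obtain ⟨h1, h2, h3⟩ := c1 hN h
      obtain ⟨r', rfl⟩ := (hfO _).1 h2
      obtain ⟨a', rfl⟩ := (hfO _).1 h3
      rcases v with v | ⟨r0, a0, e⟩
      · exact absurd ((hfO _).2 ⟨v, rfl⟩) h1
      · have h4 := (hz r0 a0).2.1 e
        obtain ⟨g1, g2⟩ := c2 hN h h4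
        have g1' : (r' : N) = r0 := g1
        have g2' : (a' : N) = a0 := g2
        refine ⟨r', a', e, ?_, rfl, rfl⟩
        rw [Subtype.ext g1', Subtype.ext g2']
    · rintro ⟨r', a', e, rfl, rfl, rfl⟩
      exact (hz r' a').2.1 e
  have hK : ∀ t (x : U ⊕ U × U × Bool), rel arC N (kI t) [f x] ↔ x = Sum.inl (u t) := by
    intro t x
    rw [hu]
    constructor
    · intro h
      exact hinj (h : f x = f (Sum.inl (u t)))
    · rintro rfl; rfl
  let g : (fam p).Car arC u ≃ N := Equiv.ofBijective f ⟨hinj, hsurj⟩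
  have hg : ∀ i L, List.length L = arC i →
      (rel arC N i (L.map g) ↔ rel arC ((fam p).Car arC u) i L) := by
    intro i L hL
    cases i with
    | zero =>
      match L, hL with
      | [v, r, a], _ => exact (hC v r a).trans (rel_C p u v r a).symm
    | succ idx =>
      match L, hL with
      | [x], _ =>
        show rel arC N (idx + 1) [f x] ↔ _
        obtain ⟨tag, m, rfl⟩ : ∃ tag m, idx = Nat.pair tag m :=
          ⟨_, _, (Nat.pair_unpair idx).symm⟩
        match tag with
        | 0 =>
          exact ((hN.s13 m (fun _ => f x)).trans (hfO x)).trans (rel_O' p u m x).symm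
        | 1 => exact (hK m x).trans (rel_K p u m x).symm
        | 2 =>
          refine Iff.trans ?_ (rel_Q p u m x).symm
          constructor
          · intro h
            obtain ⟨y, hy, hy'⟩ := hN.s6 m (fun _ => f x) h
            rcases x with x | ⟨a, b, e⟩
            · exact absurd x.2 (c1 hN hy).1
            · obtain ⟨g1, g2⟩ := c2 hN hy ((hz a b).2.1 e)
              rw [hu, g1] at hy'
              have ha : a = u m := Subtype.ext hy'
              cases e
              · exact ⟨b, by rw [ha]⟩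
              · exact absurd h ((hz a b).2.2.1 m ha).2
          · rintro ⟨b, rfl⟩
            exact ((hz (u m) b).2.2.1 m rfl).1
        | 3 =>
          refine Iff.trans ?_ (rel_P p u m x).symm
          rcases hev : p.ev m with _ | i
          · constructor
            · intro h
              exact absurd h (hN.s10 (Nat.pair 3 m)
                (Or.inr ⟨by rw [Nat.unpair_pair], by rw [Nat.unpair_pair]; exact hev⟩)
                (fun _ => f x))
            · rintro ⟨i, hi, _⟩
              exact absurd hi (by simp)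
          · constructor
            · intro h
              obtain ⟨y, hy, hy'⟩ := hN.s8 m i hev (fun _ => f x) h
              rcases x with x | ⟨a, b, e⟩
              · exact absurd x.2 (c1 hN hy).1
              · obtain ⟨g1, g2⟩ := c2 hN hy ((hz a b).2.1 e)
                rw [hu, g2] at hy'
                have hb : b = u i := Subtype.ext hy'
                cases e
                · exact ⟨i, rfl, a, by rw [hb]⟩
                · exact absurd h ((hz a b).2.2.2 m i hev hb).2
            · rintro ⟨i', hi', a, rfl⟩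
              cases hi'
              exact ((hz a (u i)).2.2.2 m i hev rfl).1
        | tag + 4 =>
          constructor
          · intro h
            exact absurd h (hN.s10 (Nat.pair (tag + 4) m)
              (Or.inl (by rw [Nat.unpair_pair]; show 4 ≤ tag + 4; omega)) (fun _ => f x))
          · intro h
            exact absurd h (rel_other p u _ (by rw [Nat.unpair_pair]; show 4 ≤ tag + 4; omega) x)
  exact ⟨U, u, ⟨(mkEquiv g hg).symm⟩⟩

end

theorem classif (p : Ev) (N : Type) [(RL arC).Structure N]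
    (h : ((fam p).Car arC (Function.Embedding.refl ℕ)) ≅[RL arC] N) :
    ∃ (U : Type) (u : ℕ ↪ U), Nonempty (N ≃[RL arC] (fam p).Car arC u) :=
  reconstruct ((cAx_fam p _).of_equiv h)

end Pool.Agent.H494_SA
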