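import Pool.Agent.H494_SA.Copy

/-! Consequences of strong constructivity; search. -/

open FirstOrder Cardinal FirstOrder.Language

namespace Pool.Agent.H494_SA

open Pool.Agent.H494_SCM

theorem exists_choice {P : ℕ × ℕ → Prop} (hP : ComputablePred P) (h : ∀ n, ∃ w, P (n, w)) :
    ∃ f : ℕ → ℕ, Computable f ∧ ∀ n, P (n, f n) := by
  classical
  have hd : Computable (fun x : ℕ × ℕ => decide (P x)) := hP.decide
  have h1 : Partrec (fun n : ℕ => Nat.rfind (fun w => (Part.some (decide (P (n, w))) : Part Bool))) :=
    Partrec.rfind hd.partrec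
  have hdom : ∀ n, (Nat.rfind (fun w => (Part.some (decide (P (n, w))) : Part Bool))).Dom := by
    intro n
    rw [Nat.rfind_dom]
    obtain ⟨w, hw⟩ := h n
    exact ⟨w, by simpa using hw, fun _ => trivial⟩
  refine ⟨fun n => (Nat.rfind (fun w => (Part.some (decide (P (n, w))) : Part Bool))).get (hdom n),
    ?_, ?_⟩
  · refine Partrec.of_eq h1 ?_
    intro n
    exact (Part.some_get (hdom n)).symm
  · intro n
    have := Nat.rfind_spec (Part.get_mem (hdom n))
    simpa using this

section

variable {ar : ℕ → ℕ} {M : Type} [(RL ar).Structure M] {ν : ℕ → M}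

theorem strong_hol (hs : StrongConstr (ar := ar) M ν) :
    ComputablePred (fun p : ℕ × List ℕ => Hol ar M ν p.1 p.2) :=
  cp_of_iff hs.2 (fun p => (hol_iff ν p.1 p.2).symm)

theorem strong_rel (hs : StrongConstr (ar := ar) M ν) :
    ComputablePred (fun p : ℕ × List ℕ => rel ar M p.1 (p.2.map ν)) := by
  have hc : Computable (fun p : ℕ × List ℕ =>
      ((Nat.pair 1 (Nat.pair p.1 (Encodable.encode (List.range p.2.length))) + 1, p.2) :
        ℕ × List ℕ)) := by
    refine Computable.pair (c_add (c_pair (Computable.const 1) (c_pair Computable.fst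
      (Computable.encode.comp (Primrec.list_range.to_comp.comp
        (Computable.list_length.comp Computable.snd))))) (Computable.const 1)) Computable.snd
  refine cp_of_iff (cp_comp (strong_hol hs) hc) ?_
  rintro ⟨i, L⟩
  show _ ↔ Hol ar M ν (Nat.pair 1 (Nat.pair i (Encodable.encode (List.range L.length))) + 1) L
  rw [hol_1 ν _ L (by rw [Nat.unpair_pair])]
  simp only [Nat.unpair_pair, Denumerable.ofNat_encode]
  have e : (List.range L.length).map (fun x => ν (L.getD x 0)) = L.map ν := by
    apply List.ext_getElem
    · simp
    · intro k h1 h2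
      have h3 : k < L.length := by simpa using h1
      rw [List.getElem_map, List.getElem_map, List.getElem_range, List.getD_eq_getElem _ _ h3]
  rw [e]
  constructor
  · intro h
    exact ⟨fun x hx => List.mem_range.1 hx, h⟩
  · exact fun h => h.2

theorem strong_rel1 (hs : StrongConstr (ar := ar) M ν) {α : Type} [Primcodable α]
    {i x : α → ℕ} (hi : Computable i) (hx : Computable x) :
    ComputablePred (fun a : α => rel ar M (i a) [ν (x a)]) :=
  cp_of_iff (cp_comp (strong_rel hs) (Computable.pair hi (Computable.list_cons.comp hx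
    (Computable.const [])))) (fun _ => Iff.rfl)

theorem strong_rel3 (hs : StrongConstr (ar := ar) M ν) {α : Type} [Primcodable α]
    {i x y z : α → ℕ} (hi : Computable i) (hx : Computable x) (hy : Computable y)
    (hz : Computable z) :
    ComputablePred (fun a : α => rel ar M (i a) [ν (x a), ν (y a), ν (z a)]) :=
  cp_of_iff (cp_comp (strong_rel hs) (Computable.pair hi (Computable.list_cons.comp hx
    (Computable.list_cons.comp hy (Computable.list_cons.comp hz
    (Computable.const [])))))) (fun _ => Iff.rfl)

end

/-- a component of a coded list -/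
def gt (k w : ℕ) : ℕ := (Denumerable.ofNat (List ℕ) w).getD k 0

theorem gt_encode (k : ℕ) (L : List ℕ) : gt k (Encodable.encode L) = L.getD k 0 := by
  unfold gt
  rw [Denumerable.ofNat_encode]

theorem gt_comp (k : ℕ) : Computable (gt k) :=
  cp_getD (Computable.ofNat (List ℕ)) (Computable.const k)

end Pool.Agent.H494_SA
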