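import Pool.Agent.H494_SA.Eval

/-! A recursion scheme for total functions with at most two calls. -/

open Nat.Partrec (Code)
open Nat.Partrec.Code

namespace Pool.Agent.H494_SA

open Pool.Agent.H494_SCM

/-- states of the recursion -/
abbrev St := ℕ × ℕ × List ℕ × ℕ

theorem exists_rec {imm : St → Bool} {g : St → ℕ} {q : St → St} {g' : St → ℕ} {p2 : St → Bool}
    {q' : St → St} (h1 : Computable imm) (h2 : Computable g) (h3 : Computable q)
    (h4 : Computable g') (h5 : Computable p2) (h6 : Computable q') :
    ∃ e : Code, ∀ a : St, eval e (Encodable.encode a) =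
      bif imm a then Part.some (g a) else
        (eval e (Encodable.encode (q a))).bind fun r =>
          bif (decide (r = 0)) then Part.some (g' a) else
            bif p2 a then Part.some r else eval e (Encodable.encode (q' a)) := by
  let f : Code → ℕ →. ℕ := fun e n =>
    bif imm (Denumerable.ofNat St n) then Part.some (g (Denumerable.ofNat St n)) else
        (eval e (Encodable.encode (q (Denumerable.ofNat St n)))).bind fun r =>
          bif (decide (r = 0)) then Part.some (g' (Denumerable.ofNat St n)) else
            bif p2 (Denumerable.ofNat St n) then Part.some r else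
              eval e (Encodable.encode (q' (Denumerable.ofNat St n)))
  have hof : Computable (fun x : Code × ℕ => Denumerable.ofNat St x.2) :=
    (Computable.ofNat St).comp Computable.snd
  have hof2 : Computable (fun x : (Code × ℕ) × ℕ => Denumerable.ofNat St x.1.2) :=
    hof.comp Computable.fst
  have e1 : Partrec (fun x : Code × ℕ =>
      eval x.1 (Encodable.encode (q (Denumerable.ofNat St x.2)))) :=
    eval_part.comp Computable.fst (Computable.encode.comp (h3.comp hof))
  have e2 : Partrec (fun x : (Code × ℕ) × ℕ =>
      eval x.1.1 (Encodable.encode (q' (Denumerable.ofNat St x.1.2)))) :=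
    eval_part.comp (Computable.fst.comp Computable.fst) (Computable.encode.comp (h6.comp hof2))
  have e3 : Partrec (fun x : (Code × ℕ) × ℕ =>
      bif p2 (Denumerable.ofNat St x.1.2) then Part.some x.2 else
              eval x.1.1 (Encodable.encode (q' (Denumerable.ofNat St x.1.2)))) :=
    Partrec.cond (h5.comp hof2) Computable.snd.partrec e2
  have hz : Computable (fun x : (Code × ℕ) × ℕ => decide (x.2 = 0)) :=
    (cp_eq (Computable.snd (α := Code × ℕ) (β := ℕ)) (Computable.const 0)).decide
  have e4 : Partrec (fun x : (Code × ℕ) × ℕ =>
      bif (decide (x.2 = 0)) then Part.some (g' (Denumerable.ofNat St x.1.2)) else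
        bif p2 (Denumerable.ofNat St x.1.2) then Part.some x.2 else
              eval x.1.1 (Encodable.encode (q' (Denumerable.ofNat St x.1.2)))) :=
    Partrec.cond hz (h4.comp hof2).partrec e3
  have e5 : Partrec (fun x : Code × ℕ =>
      (eval x.1 (Encodable.encode (q (Denumerable.ofNat St x.2)))).bind fun r =>
        bif (decide (r = 0)) then Part.some (g' (Denumerable.ofNat St x.2)) else
        bif p2 (Denumerable.ofNat St x.2) then Part.some r else
              eval x.1 (Encodable.encode (q' (Denumerable.ofNat St x.2)))) :=
    Partrec.bind e1 e4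
  have hf : Partrec₂ f := Partrec.cond (h1.comp hof) (h2.comp hof).partrec e5
  obtain ⟨e, he⟩ := fixed_point₂ hf
  refine ⟨e, fun a => ?_⟩
  conv_lhs => rw [he]
  show f e (Encodable.encode a) = _
  simp only [f, Denumerable.ofNat_encode]

end Pool.Agent.H494_SA
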