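import Pool.Agent.H494_SA.Models

/-!
A decidable uncountably categorical theory whose prime model is strongly autostable, with a
nonsaturated countable model having two strong constructivizations that are not autoequivalent.
-/

open FirstOrder Cardinal

namespace Pool.Agent.H494_SA.Variant

open Pool.Agent.H494_SCM Pool.Agent.H494_SA

/-- There are a computable relational signature (symbol `i` has arity `ar i`) and a complete
decidable theory `T` in it, categorical in all uncountable cardinals, such that its prime model
`A₀` is strongly autostable (and has a strong constructivization), while some countable model `A₁`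
of `T` that is not saturated has two strong constructivizations that are not autoequivalent.
(The first clause says that the Goedel numbering `fm` reaches all formulas.) -/
theorem result : ∃ ar : ℕ → ℕ, Computable ar ∧
    (∀ (n : ℕ) (φ : (RL ar).BoundedFormula Empty n), ∃ c, fm ar c n = φ) ∧
    ∃ T : (RL ar).Theory, T.IsComplete ∧ DecidableTheory (ar := ar) T ∧
      (∀ κ : Cardinal.{0}, ℵ₀ < κ → Cardinal.Categorical κ T) ∧
      ∃ A₀ A₁ : FirstOrder.Language.Theory.ModelType.{0, 0, 0} T,
        Infinite A₀ ∧
        (∀ N : FirstOrder.Language.Theory.ModelType.{0, 0, 0} T,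
          Nonempty (A₀ ↪ₑ[RL ar] N)) ∧
        (∃ ν : ℕ → A₀, StrongConstr (ar := ar) A₀ ν) ∧
        StronglyAutostable (ar := ar) A₀ ∧
        Countable A₁ ∧ ¬ IsSat (ar := ar) A₁ ∧
        ∃ ν μ : ℕ → A₁, StrongConstr (ar := ar) A₁ ν ∧ StrongConstr (ar := ar) A₁ μ ∧
          ¬ AutoEq (ar := ar) A₁ ν μ := by
  have h0 : StrongConstr (ar := arC) (Mj evD 0) (nu (fun _ _ => false)) :=
    strong_copy evD evD_comp 0 _ (fun _ => false) (Computable.const false) (fun _ _ => rfl)
      (fun _ _ _ _ => rfl)
  refine ⟨arC, ?_, fun n φ => fm_surj arC φ, Th evD, th_complete evD, decidable_of_strong evD h0,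
    categorical evD, carM evD (mk 0), carM evD (mk 1), ?_, prime_zero evD, ⟨_, h0⟩,
    auto_zero evD, ?_, not_sat_one evD, nu (fun _ _ => false), nu sD, strong_zero, strong_one,
    not_autoEq⟩
  · refine (c_ite (cp_eq (Computable.id (α := ℕ)) (Computable.const 0)) (Computable.const 3)
      (Computable.const 1)).of_eq ?_
    intro i
    cases i <;> rfl
  · show Infinite (ℕ ⊕ ℕ × ℕ × Bool)
    infer_instance
  · show Countable (ℕ ⊕ ℕ × ℕ × Bool)
    infer_instance

end Pool.Agent.H494_SA.Variant
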